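import Pool.Agent.J4.H30.NL.Weighted

set_option autoImplicit false

/-!
# A sparse Rödl theorem and divisions into few sparse parts
-/

namespace Pool.Agent.J4.H30.NL

open Finset Pool.Agent.Y394.AT Real

open Classical in
/-- **A sparse Rödl theorem with nearly linear sets.** -/
theorem roedl {r H k : ℕ} {C θ : ℝ} (hC : 0 ≤ C) (hθ : 0 ≤ θ) (hθ1 : θ < 1)
    (hM : MainS r H k C θ) : ∃ C₁ : ℝ, 0 ≤ C₁ ∧ ∀ (V : Type) [Fintype V] (G : SimpleGraph V),
      (¬ ∃ ψ, IsCopy G r H ψ) → G.CliqueFree (k + 1) → ∀ δ : ℝ, 0 < δ → δ ≤ 1 →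
      ∃ U : Finset V, exp (-(C₁ * (1 + Real.log (1 / δ)) ^ θ)) * Fintype.card V ≤ U.card ∧
        ∑ v ∈ U, ((nb G v ∩ U).card : ℝ) ≤
          δ * ((U.card : ℝ) / Fintype.card V) ^ 2 * ∑ v, ((nb G v).card : ℝ) := by
  obtain ⟨L₀, hL₀⟩ : ∃ L₀ : ℝ, L₀ = max 1 ((4 * C) ^ (1 / (1 - θ))) := ⟨_, rfl⟩
  have hL₀1 : 1 ≤ L₀ := by rw [hL₀]; exact le_max_left _ _
  have hL₀2 : (4 * C) ^ (1 / (1 - θ)) ≤ L₀ := by rw [hL₀]; exact le_max_right _ _
  have hsub : ∀ y : ℝ, L₀ ≤ y → C * (1 + y) ^ θ ≤ y / 2 := by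
    intro y hy
    have hy0 : 0 < 1 + y := by linarith
    have h1 : 4 * C ≤ (1 + y) ^ (1 - θ) := by
      have h2 : ((4 * C) ^ (1 / (1 - θ))) ^ (1 - θ) = 4 * C := by
        rw [← Real.rpow_mul (by linarith), one_div, inv_mul_cancel₀ (by linarith : (1 - θ) ≠ 0),
          Real.rpow_one]
      rw [← h2]
      exact Real.rpow_le_rpow (Real.rpow_nonneg (by linarith) _) (by linarith) (by linarith)
    have h3 : (1 + y) ^ (1 - θ) * (1 + y) ^ θ = 1 + y := by
      rw [← Real.rpow_add hy0]
      simp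
    have h4 := mul_le_mul_of_nonneg_right h1 (Real.rpow_nonneg hy0.le θ)
    rw [h3] at h4
    linarith
  obtain ⟨K₁, hK₁⟩ : ∃ K₁ : ℝ, K₁ = 1 + 2 * Real.log 4 + L₀ + 2 := ⟨_, rfl⟩
  have hlog4 : 0 ≤ Real.log 4 := Real.log_nonneg (by norm_num)
  have hK₁1 : 1 ≤ K₁ := by linarith
  refine ⟨C * K₁ + 1, by positivity, ?_⟩
  intro V _ G hno hG δ hδ hδ1
  rcases isEmpty_or_nonempty V with hV | hV
  · refine ⟨∅, ?_, ?_⟩
    · rw [Fintype.card_eq_zero]
      simp
    · simp
  have hn0 : 0 < (Fintype.card V : ℝ) := by exact_mod_cast Fintype.card_pos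
  obtain ⟨n, hn⟩ : ∃ n : ℝ, n = Fintype.card V := ⟨_, rfl⟩
  rw [← hn] at hn0 ⊢
  obtain ⟨E, hE⟩ : ∃ E : ℝ, E = ∑ v, ((nb G v).card : ℝ) := ⟨_, rfl⟩
  have hE0 : 0 ≤ E := by rw [hE]; exact Finset.sum_nonneg fun v _ => Nat.cast_nonneg _
  rw [← hE]
  obtain ⟨D, hD⟩ : ∃ D : ℝ, D = E / n := ⟨_, rfl⟩
  have hD0 : 0 ≤ D := by rw [hD]; positivity
  have hDE : D * n = E := by rw [hD]; field_simp
  obtain ⟨W, hW⟩ : ∃ W : Finset V, W = univ.filter (fun v => ((nb G v).card : ℝ) ≤ 2 * D) :=
    ⟨_, rfl⟩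
  have hWc : n / 2 ≤ W.card := by
    have h1 : ((univ \ W).card : ℝ) = n - W.card := by
      rw [Finset.card_sdiff_of_subset (Finset.subset_univ _), Nat.cast_sub
        (Finset.card_le_card (Finset.subset_univ _)), Finset.card_univ, hn]
    rcases hD0.eq_or_lt with hD00 | hD00
    · have h2 : E = 0 := by rw [← hDE, ← hD00]; ring
      have h3 : W = univ := by
        rw [hW]
        apply Finset.filter_true_of_mem
        intro v _
        have h4 : ((nb G v).card : ℝ) ≤ E := by
          rw [hE]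
          exact Finset.single_le_sum (f := fun v => ((nb G v).card : ℝ))
            (fun _ _ => Nat.cast_nonneg _) (Finset.mem_univ v)
        linarith
      rw [h3, Finset.card_univ, ← hn]
      linarith
    · have h2 : ((univ \ W).card : ℝ) * (2 * D) ≤ E := by
        calc ((univ \ W).card : ℝ) * (2 * D) = ∑ v ∈ univ \ W, 2 * D := by
              rw [Finset.sum_const, nsmul_eq_mul]
          _ ≤ ∑ v ∈ univ \ W, ((nb G v).card : ℝ) := by
              apply Finset.sum_le_sum
              intro v hv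
              rw [Finset.mem_sdiff, hW, Finset.mem_filter, not_and, not_le] at hv
              exact (hv.2 hv.1).le
          _ ≤ ∑ v, ((nb G v).card : ℝ) :=
              Finset.sum_le_sum_of_subset_of_nonneg (Finset.subset_univ _)
                (fun _ _ _ => Nat.cast_nonneg _)
          _ = E := hE.symm
      rw [h1, ← hDE] at h2
      have h3 : (n - W.card) * 2 ≤ n := by
        have h4 : ((n - W.card) * 2) * D ≤ n * D := by linarith
        exact le_of_mul_le_mul_right h4 hD00
      linarith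
  have hlogδ : 0 ≤ Real.log (1 / δ) := Real.log_nonneg (by rw [le_div_iff₀ hδ]; linarith)
  obtain ⟨L, hL⟩ : ∃ L : ℝ, L = 2 * Real.log (4 / δ) + L₀ := ⟨_, rfl⟩
  have hlog4δ : Real.log (4 / δ) = Real.log 4 + Real.log (1 / δ) := by
    rw [← Real.log_mul (by norm_num) (by positivity)]
    congr 1
    ring
  have hLL₀ : L₀ ≤ L := by rw [hL, hlog4δ]; linarith
  obtain ⟨X, hXW, hXc, hXd⟩ := hM V G hno W hG.cliqueFreeOn (2 * D) L (by linarith) (by
    intro v hv
    have h1 : ((nb G v ∩ W).card : ℝ) ≤ (nb G v).card := by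
      exact_mod_cast Finset.card_le_card Finset.inter_subset_left
    rw [hW, Finset.mem_filter] at hv
    exact h1.trans hv.2)
  have hg0 : 0 < exp (-(C * (1 + L) ^ θ)) := Real.exp_pos _
  have hXn : exp (-(C * (1 + L) ^ θ)) / 2 * n ≤ X.card := by
    refine le_trans ?_ hXc
    have := mul_le_mul_of_nonneg_left hWc hg0.le
    linarith
  refine ⟨X, ?_, ?_⟩
  · refine le_trans ?_ hXn
    apply mul_le_mul_of_nonneg_right _ hn0.le
    have hy1 : 1 ≤ (1 + Real.log (1 / δ)) ^ θ := Real.one_le_rpow (by linarith) hθ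
    have h1 : (1 + L) ^ θ ≤ K₁ * (1 + Real.log (1 / δ)) ^ θ := by
      have h2 : 1 + L ≤ K₁ * (1 + Real.log (1 / δ)) := by
        rw [hL, hlog4δ, hK₁]
        nlinarith
      calc (1 + L) ^ θ ≤ (K₁ * (1 + Real.log (1 / δ))) ^ θ :=
            Real.rpow_le_rpow (by linarith) h2 hθ
        _ = K₁ ^ θ * (1 + Real.log (1 / δ)) ^ θ := Real.mul_rpow (by linarith) (by linarith)
        _ ≤ K₁ * (1 + Real.log (1 / δ)) ^ θ := by
            apply mul_le_mul_of_nonneg_right _ (by linarith)
            calc K₁ ^ θ ≤ K₁ ^ (1 : ℝ) := Real.rpow_le_rpow_of_exponent_le hK₁1 hθ1.le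
              _ = K₁ := Real.rpow_one _
    have h3 : exp (-1) ≤ 1 / 2 := by
      rw [Real.exp_neg]
      have := Real.add_one_le_exp (1 : ℝ)
      rw [inv_eq_one_div]
      apply div_le_div_of_nonneg_left (by norm_num) (by norm_num)
      linarith
    calc exp (-((C * K₁ + 1) * (1 + Real.log (1 / δ)) ^ θ)) ≤
          exp (-(C * (1 + L) ^ θ)) * exp (-1) := by
          rw [← Real.exp_add]
          apply Real.exp_le_exp.2
          have h4 := mul_le_mul_of_nonneg_left h1 hC
          nlinarith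
      _ ≤ exp (-(C * (1 + L) ^ θ)) * (1 / 2) := mul_le_mul_of_nonneg_left h3 hg0.le
      _ = _ := by ring
  · have h1 : ∑ v ∈ X, ((nb G v ∩ X).card : ℝ) ≤ X.card * (2 * D * exp (-L)) := by
      rw [← nsmul_eq_mul, ← Finset.sum_const]
      exact Finset.sum_le_sum fun v hv => hXd v hv
    refine h1.trans ?_
    have h2 : 4 * exp (-L) ≤ δ * exp (-(L / 2)) := by
      have h3 : 4 / δ ≤ exp (L / 2) := by
        have h4 : Real.log (4 / δ) ≤ L / 2 := by rw [hL]; linarith
        rwa [Real.log_le_iff_le_exp (by positivity)] at h4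
      have h5 : exp (-(L / 2)) = exp (L / 2) * exp (-L) := by
        rw [← Real.exp_add]
        congr 1
        ring
      rw [div_le_iff₀ hδ] at h3
      rw [h5]
      have := mul_le_mul_of_nonneg_right h3 (Real.exp_pos (-L)).le
      linarith
    have h6 : exp (-(L / 2)) ≤ exp (-(C * (1 + L) ^ θ)) :=
      Real.exp_le_exp.2 (by linarith [hsub L hLL₀])
    have h7 : 2 * exp (-L) * n ≤ δ * X.card := by
      have h8 : 4 * exp (-L) ≤ δ * exp (-(C * (1 + L) ^ θ)) :=
        h2.trans (mul_le_mul_of_nonneg_left h6 hδ.le)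
      have h9 := mul_le_mul_of_nonneg_right h8 hn0.le
      have h10 := mul_le_mul_of_nonneg_left hXn hδ.le
      linarith
    have h11 : δ * ((X.card : ℝ) / n) ^ 2 * E = (X.card * D / n) * (δ * X.card) := by
      rw [← hDE]
      field_simp
    rw [h11]
    calc (X.card : ℝ) * (2 * D * exp (-L)) = (X.card * D / n) * (2 * exp (-L) * n) := by
          field_simp
      _ ≤ _ := mul_le_mul_of_nonneg_left h7 (by positivity)

open Classical in
/-- the iteration for the division theorem -/
theorem iterate {r H k : ℕ} {C θ : ℝ} (hC : 0 ≤ C) (hM : MainS r H k C θ) {V : Type} [Fintype V]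
    (G : SimpleGraph V) (hno : ¬ ∃ ψ, IsCopy G r H ψ) (hG : G.CliqueFree (k + 1)) {d L : ℝ}
    (hL : 0 ≤ L) (hd : ∀ v, ((nb G v).card : ℝ) ≤ d) : ∀ m : ℕ, ∃ (f : V → ℕ) (R : Finset V),
      (∀ v, v ∉ R → f v < m) ∧
      (∀ v, v ∉ R → (((nb G v).filter (fun w => w ∉ R ∧ f w = f v)).card : ℝ) ≤ d * exp (-L)) ∧
      (R.card : ℝ) ≤ (1 - exp (-(C * (1 + L) ^ θ))) ^ m * Fintype.card V := by
  intro m
  have hg1 : exp (-(C * (1 + L) ^ θ)) ≤ 1 := by
    rw [Real.exp_le_one_iff, Left.neg_nonpos_iff]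
    exact mul_nonneg hC (Real.rpow_nonneg (by linarith) _)
  induction m with
  | zero =>
    exact ⟨fun _ => 0, univ, fun v hv => absurd (Finset.mem_univ v) hv,
      fun v hv => absurd (Finset.mem_univ v) hv, by simp⟩
  | succ m ih =>
    obtain ⟨f, R, h1, h2, h3⟩ := ih
    obtain ⟨X, hXR, hXc, hXd⟩ := hM V G hno R hG.cliqueFreeOn d L hL (by
      intro v _
      refine le_trans ?_ (hd v)
      exact_mod_cast Finset.card_le_card Finset.inter_subset_left)
    refine ⟨fun v => if v ∈ X then m else f v, R \ X, ?_, ?_, ?_⟩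
    · intro v hv
      dsimp only
      split_ifs with h
      · omega
      · have h4 : v ∉ R := fun h5 => hv (Finset.mem_sdiff.2 ⟨h5, h⟩)
        have := h1 v h4
        omega
    · intro v hv
      by_cases hvX : v ∈ X
      · refine le_trans ?_ (hXd v hvX)
        have h4 : (nb G v).filter (fun w => w ∉ R \ X ∧
            (if w ∈ X then m else f w) = (if v ∈ X then m else f v)) ⊆ nb G v ∩ X := by
          intro w hw
          rw [Finset.mem_filter, if_pos hvX] at hw
          obtain ⟨hw1, hw2, hw3⟩ := hw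
          rw [Finset.mem_inter]
          refine ⟨hw1, ?_⟩
          by_contra hwX
          rw [if_neg hwX] at hw3
          have h5 : w ∉ R := fun h6 => hw2 (Finset.mem_sdiff.2 ⟨h6, hwX⟩)
          have := h1 w h5
          omega
        exact_mod_cast Finset.card_le_card h4
      · have hvR : v ∉ R := fun h5 => hv (Finset.mem_sdiff.2 ⟨h5, hvX⟩)
        refine le_trans ?_ (h2 v hvR)
        have h4 : (nb G v).filter (fun w => w ∉ R \ X ∧
            (if w ∈ X then m else f w) = (if v ∈ X then m else f v)) ⊆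
            (nb G v).filter (fun w => w ∉ R ∧ f w = f v) := by
          intro w hw
          rw [Finset.mem_filter, if_neg hvX] at hw
          obtain ⟨hw1, hw2, hw3⟩ := hw
          have hwX : w ∉ X := by
            intro h
            rw [if_pos h] at hw3
            have := h1 v hvR
            omega
          rw [if_neg hwX] at hw3
          rw [Finset.mem_filter]
          exact ⟨hw1, fun h6 => hw2 (Finset.mem_sdiff.2 ⟨h6, hwX⟩), hw3⟩
        exact_mod_cast Finset.card_le_card h4
    · rw [Finset.card_sdiff_of_subset hXR, Nat.cast_sub (Finset.card_le_card hXR), pow_succ]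
      have h4 : (R.card : ℝ) - X.card ≤ (1 - exp (-(C * (1 + L) ^ θ))) * R.card := by
        have : exp (-(C * (1 + L) ^ θ)) * R.card ≤ X.card := hXc
        linarith
      refine h4.trans ?_
      have := mul_le_mul_of_nonneg_left h3 (by linarith : 0 ≤ 1 - exp (-(C * (1 + L) ^ θ)))
      linarith

open Classical in
/-- **Division into few sparse parts.** -/
theorem division {r H k : ℕ} {C θ : ℝ} (hC : 0 ≤ C) (hθ : 1 / 2 ≤ θ) (hθ1 : θ < 1)
    (hM : MainS r H k C θ) : ∃ C₂ : ℝ, 0 ≤ C₂ ∧ ∀ (V : Type) [Fintype V] (G : SimpleGraph V),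
      (¬ ∃ ψ, IsCopy G r H ψ) → G.CliqueFree (k + 1) → ∀ d : ℝ, (∀ v, ((nb G v).card : ℝ) ≤ d) →
      ∀ δ : ℝ, 0 < δ → δ ≤ 1 → ∃ (q : ℕ) (f : V → ℕ),
        (q : ℝ) ≤ exp (C₂ * (1 + Real.log (1 / δ)) ^ θ) ∧ (∀ v, f v < q) ∧
        ∑ v, (((nb G v).filter (fun w => f w = f v)).card : ℝ) ≤ δ * (d * Fintype.card V) := by
  refine ⟨2 * (C + 3), by linarith, ?_⟩
  intro V _ G hno hG d hd δ hδ hδ1
  have hlogδ : 0 ≤ Real.log (1 / δ) := Real.log_nonneg (by rw [le_div_iff₀ hδ]; linarith)
  rcases isEmpty_or_nonempty V with hV | ⟨⟨v₀⟩⟩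
  · refine ⟨0, fun _ => 0, ?_, fun v => (hV.false v).elim, ?_⟩
    · simp only [Nat.cast_zero]
      positivity
    · rw [Fintype.card_eq_zero]
      simp
  have hd0 : 0 ≤ d := (Nat.cast_nonneg _).trans (hd v₀)
  obtain ⟨L, hL⟩ : ∃ L : ℝ, L = Real.log (2 / δ) := ⟨_, rfl⟩
  have hL' : L = Real.log 2 + Real.log (1 / δ) := by
    rw [hL, ← Real.log_mul (by norm_num) (by positivity)]
    congr 1
    ring
  have hl2 := Real.log_two_gt_d9
  have hl2' := Real.log_two_lt_d9
  have hL0 : 0 ≤ L := by rw [hL']; linarith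
  obtain ⟨g, hg⟩ : ∃ g : ℝ, g = exp (-(C * (1 + L) ^ θ)) := ⟨_, rfl⟩
  have hg0 : 0 < g := by rw [hg]; exact Real.exp_pos _
  have hg1 : g ≤ 1 := by
    rw [hg, Real.exp_le_one_iff, Left.neg_nonpos_iff]
    exact mul_nonneg hC (Real.rpow_nonneg (by linarith) _)
  obtain ⟨m, hm⟩ : ∃ m : ℕ, m = ⌈L / g⌉₊ := ⟨_, rfl⟩
  have hm1 : L / g ≤ m := by rw [hm]; exact Nat.le_ceil _
  have hm2 : (m : ℝ) < L / g + 1 := by rw [hm]; exact Nat.ceil_lt_add_one (by positivity)
  obtain ⟨f, R, h1, h2, h3⟩ := iterate hC hM G hno hG hL0 hd m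
  rw [← hg] at h3
  have hR : (R.card : ℝ) ≤ exp (-L) * Fintype.card V := by
    refine h3.trans ?_
    apply mul_le_mul_of_nonneg_right _ (Nat.cast_nonneg _)
    have h4 : 1 - g ≤ exp (-g) := by linarith [Real.add_one_le_exp (-g)]
    calc (1 - g) ^ m ≤ (exp (-g)) ^ m := pow_le_pow_left₀ (by linarith) h4 m
      _ = exp (m * (-g)) := by rw [← Real.exp_nat_mul]
      _ ≤ exp (-L) := by
          apply Real.exp_le_exp.2
          rw [div_le_iff₀ hg0] at hm1
          linarith
  refine ⟨m + 1, fun v => if v ∈ R then m else f v, ?_, ?_, ?_⟩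
  · push_cast
    have h4 : (m : ℝ) + 1 ≤ (L + 2) * exp (C * (1 + L) ^ θ) := by
      have h5 : exp (C * (1 + L) ^ θ) = 1 / g := by
        rw [hg, Real.exp_neg, one_div, inv_inv]
      rw [h5]
      have h6 : 1 ≤ 1 / g := by rw [le_div_iff₀ hg0]; linarith
      have h7 : L / g = L * (1 / g) := by ring
      rw [h7] at hm2
      linarith
    have h8 : L + 2 ≤ exp (3 * (1 + L) ^ θ) := by
      have hy1 : 1 ≤ (1 + L) ^ θ := Real.one_le_rpow (by linarith) (by linarith)
      have h9 : Real.log (1 + L) ≤ 2 * (1 + L) ^ θ := by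
        have h10 := Real.log_le_rpow_div (by linarith : 0 ≤ 1 + L) (by linarith : (0 : ℝ) < θ)
        have h11 : (1 + L) ^ θ / θ ≤ 2 * (1 + L) ^ θ := by
          rw [div_le_iff₀ (by linarith)]
          nlinarith
        linarith
      have h12 : L + 2 ≤ exp (Real.log 2 + Real.log (1 + L)) := by
        rw [Real.exp_add, Real.exp_log (by norm_num), Real.exp_log (by linarith)]
        linarith
      refine h12.trans (Real.exp_le_exp.2 (by linarith))
    have h13 : (1 + L) ^ θ ≤ 2 * (1 + Real.log (1 / δ)) ^ θ := by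
      have h14 : 1 + L ≤ 2 * (1 + Real.log (1 / δ)) := by rw [hL']; linarith
      calc (1 + L) ^ θ ≤ (2 * (1 + Real.log (1 / δ))) ^ θ :=
            Real.rpow_le_rpow (by linarith) h14 (by linarith)
        _ = 2 ^ θ * (1 + Real.log (1 / δ)) ^ θ := Real.mul_rpow (by norm_num) (by linarith)
        _ ≤ 2 * (1 + Real.log (1 / δ)) ^ θ := by
            apply mul_le_mul_of_nonneg_right _ (Real.rpow_nonneg (by linarith) _)
            calc (2 : ℝ) ^ θ ≤ 2 ^ (1 : ℝ) :=
                  Real.rpow_le_rpow_of_exponent_le (by norm_num) hθ1.le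
              _ = 2 := Real.rpow_one _
    calc (m : ℝ) + 1 ≤ (L + 2) * exp (C * (1 + L) ^ θ) := h4
      _ ≤ exp (3 * (1 + L) ^ θ) * exp (C * (1 + L) ^ θ) :=
          mul_le_mul_of_nonneg_right h8 (Real.exp_pos _).le
      _ = exp ((C + 3) * (1 + L) ^ θ) := by
          rw [← Real.exp_add]
          congr 1
          ring
      _ ≤ exp (2 * (C + 3) * (1 + Real.log (1 / δ)) ^ θ) := by
          apply Real.exp_le_exp.2
          have := mul_le_mul_of_nonneg_left h13 (by linarith : 0 ≤ C + 3)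
          linarith
  · intro v
    dsimp only
    split_ifs with h
    · omega
    · have := h1 v h
      omega
  · have h4 : ∀ v, (((nb G v).filter (fun w => (if w ∈ R then m else f w) =
        (if v ∈ R then m else f v))).card : ℝ) ≤ d * exp (-L) + if v ∈ R then d else 0 := by
      intro v
      by_cases hvR : v ∈ R
      · have e : (if v ∈ R then d else 0) = d := if_pos hvR
        rw [e]
        have h5 : (((nb G v).filter (fun w => (if w ∈ R then m else f w) =
            (if v ∈ R then m else f v))).card : ℝ) ≤ (nb G v).card := by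
          exact_mod_cast Finset.card_le_card (Finset.filter_subset _ _)
        have h6 := hd v
        have h7 : 0 ≤ d * exp (-L) := by positivity
        linarith
      · have e : (if v ∈ R then d else 0) = 0 := if_neg hvR
        rw [e, add_zero]
        refine le_trans ?_ (h2 v hvR)
        have h5 : (nb G v).filter (fun w => (if w ∈ R then m else f w) =
            (if v ∈ R then m else f v)) ⊆ (nb G v).filter (fun w => w ∉ R ∧ f w = f v) := by
          intro w hw
          rw [Finset.mem_filter, if_neg hvR] at hw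
          rw [Finset.mem_filter]
          have hwR : w ∉ R := by
            intro h
            rw [if_pos h] at hw
            have := h1 v hvR
            omega
          rw [if_neg hwR] at hw
          exact ⟨hw.1, hwR, hw.2⟩
        exact_mod_cast Finset.card_le_card h5
    have h5 : ∑ v, (((nb G v).filter (fun w => (if w ∈ R then m else f w) =
        (if v ∈ R then m else f v))).card : ℝ) ≤
        ∑ v, (d * exp (-L) + if v ∈ R then d else 0) := Finset.sum_le_sum fun v _ => h4 v
    refine h5.trans ?_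
    rw [Finset.sum_add_distrib, Finset.sum_const, Finset.card_univ, nsmul_eq_mul,
      ← Finset.sum_filter, Finset.sum_const, nsmul_eq_mul]
    have h6 : (univ.filter (fun v => v ∈ R)) = R := by
      ext v
      simp
    rw [h6]
    have h7 : exp (-L) = δ / 2 := by
      rw [hL, Real.exp_neg, Real.exp_log (by positivity)]
      field_simp
    rw [h7] at hR ⊢
    have h8 := mul_le_mul_of_nonneg_right hR hd0
    nlinarith

end Pool.Agent.J4.H30.NL
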