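import Pool.Agent.J4.H30.NL.Words

set_option autoImplicit false

/-!
# Induced copies of complete trees in sets without violating pairs
-/

namespace Pool.Agent.J4.H30.NL

open Finset Pool.Agent.Y394.AT

variable {V : Type} [Fintype V] {G : SimpleGraph V}

/-- a copy rooted at `y`, the other vertices in `X \ F` -/
def Cp (G : SimpleGraph V) (X F : Finset V) (r h t : ℕ) (y : V) : Prop :=
  ∃ (ψ : List ℕ → V) (S : Finset V), IsCopy G r h ψ ∧ ψ [] = y ∧
    (∀ l, inW r h l → ψ l ∈ S) ∧ (∀ v ∈ S, v ≠ y → v ∈ X ∧ v ∉ F) ∧ S.card ≤ t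

open Classical in
/-- every large sparse set contains the root of a copy outside a given set -/
def PP (G : SimpleGraph V) (X : Finset V) (σ : ℝ) (r h t : ℕ) (m f : ℝ) : Prop :=
  ∀ A F : Finset V, A ⊆ X → (∀ a ∈ A, ((nb G a ∩ A).card : ℝ) ≤ σ) → m ≤ A.card →
    (F.card : ℝ) ≤ f → ∃ y ∈ A, Cp G X F r h t y

open Classical in
theorem sum_nb_comm (H Y : Finset V) :
    ∑ z ∈ H, ((nb G z ∩ Y).card : ℝ) = ∑ y ∈ Y, ((nb G y ∩ H).card : ℝ) := by
  have h1 : ∀ (z : V) (B : Finset V), ((nb G z ∩ B).card : ℝ) = ∑ y ∈ B, if G.Adj z y then (1 : ℝ) else 0 := by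
    intro z B
    rw [← Finset.sum_filter, Finset.sum_const, nsmul_eq_mul, mul_one]
    congr 2
    ext y
    rw [Finset.mem_inter, Finset.mem_filter, mem_nb]
    tauto
  rw [Finset.sum_congr rfl (fun z _ => h1 z Y), Finset.sum_congr rfl (fun y _ => h1 y H),
    Finset.sum_comm]
  apply Finset.sum_congr rfl
  intro y _
  apply Finset.sum_congr rfl
  intro z _
  simp only [G.adj_comm]

open Classical in
theorem heavy_card {W Y : Finset V} {d : ℝ} {t : ℕ} (hYW : Y ⊆ W) (hY : Y.Nonempty)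
    (hdeg : ∀ v ∈ W, ((nb G v ∩ W).card : ℝ) ≤ d) :
    ((W.filter (fun z => (Y.card : ℝ) < 2 * t * (nb G z ∩ Y).card)).card : ℝ) ≤ 2 * t * d := by
  obtain ⟨H, hH⟩ : ∃ H, H = W.filter (fun z => (Y.card : ℝ) < 2 * t * (nb G z ∩ Y).card) := ⟨_, rfl⟩
  rw [← hH]
  have hHW : H ⊆ W := by rw [hH]; exact Finset.filter_subset _ _
  have hY0 : 0 < (Y.card : ℝ) := by exact_mod_cast hY.card_pos
  have h1 : (H.card : ℝ) * Y.card ≤ ∑ z ∈ H, 2 * t * ((nb G z ∩ Y).card : ℝ) := by
    rw [← nsmul_eq_mul, ← Finset.sum_const]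
    apply Finset.sum_le_sum
    intro z hz
    rw [hH, Finset.mem_filter] at hz
    exact hz.2.le
  rw [← Finset.mul_sum, sum_nb_comm] at h1
  have h2 : ∑ y ∈ Y, ((nb G y ∩ H).card : ℝ) ≤ Y.card * d := by
    rw [← nsmul_eq_mul, ← Finset.sum_const]
    apply Finset.sum_le_sum
    intro y hy
    refine le_trans ?_ (hdeg y (hYW hy))
    exact_mod_cast Finset.card_le_card (Finset.inter_subset_inter_left hHW)
  have h3 : (H.card : ℝ) * Y.card ≤ (2 * t * d) * Y.card := by
    refine h1.trans ?_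
    have := mul_le_mul_of_nonneg_left h2 (by positivity : (0 : ℝ) ≤ 2 * t)
    linarith
  exact le_of_mul_le_mul_right h3 hY0

open Classical in
/-- building the subtrees one after the other -/
theorem children {d σ m' f' : ℝ} {r h t R : ℕ} {W X : Finset V} (hXW : X ⊆ W)
    (hd : 0 ≤ d) (hdeg : ∀ v ∈ W, ((nb G v ∩ W).card : ℝ) ≤ d)
    (hP : PP G X σ r h t m' f') (ht : 1 ≤ t) (hm4 : 4 ≤ m') (hmσ : 2 * t * σ ≤ m')
    {x : V} (hx : x ∈ X) {F Y₀ : Finset V} (hY₀X : Y₀ ⊆ X) (hY₀x : ∀ y ∈ Y₀, G.Adj x y)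
    (hY₀F : ∀ y ∈ Y₀, y ∉ F) (hσ : ∀ y ∈ Y₀, ((nb G y ∩ Y₀).card : ℝ) ≤ σ)
    (hY : 4 ^ R * m' ≤ Y₀.card) (hF : F.card + (1 + d) * (1 + R * t) + 2 * t * d ≤ f') :
    ∀ n : ℕ, n ≤ R → ∃ (ψ : ℕ → List ℕ → V) (S Y : Finset V),
      (∀ i < n, IsCopy G r h (ψ i)) ∧ (∀ i < n, ψ i [] ∈ Y₀) ∧
      (∀ i < n, ∀ l, inW r h l → ψ i l ∈ S) ∧
      (∀ i < n, ∀ l, inW r h l → l ≠ [] → ¬ G.Adj x (ψ i l)) ∧
      (∀ v ∈ S, v ∈ X ∧ v ≠ x ∧ v ∉ F) ∧
      (∀ i < n, ∀ j < n, i ≠ j → ∀ l l', inW r h l → inW r h l' →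
        ψ i l ≠ ψ j l' ∧ ¬ G.Adj (ψ i l) (ψ j l')) ∧
      Y ⊆ Y₀ ∧ (Y₀.card : ℝ) ≤ 4 ^ n * Y.card ∧ (∀ v ∈ S, v ∉ Y) ∧
      (∀ v ∈ S, ∀ y ∈ Y, ¬ G.Adj v y) ∧ S.card ≤ n * t := by
  intro n
  induction n with
  | zero =>
    intro _
    refine ⟨fun _ _ => x, ∅, Y₀, by simp, by simp, by simp, by simp, by simp, by simp,
      Finset.Subset.refl _, by simp, by simp, by simp, by simp⟩
  | succ n ih =>
    intro hn
    obtain ⟨ψ, S, Y, ha, hb, hc, hd', he, hf, hYY, hYc, hg, hg', hh⟩ := ih (by omega)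
    have hYcard : 4 * m' ≤ (Y.card : ℝ) := by
      have h1 : (4 : ℝ) ^ R = 4 ^ n * 4 ^ (R - n) := by
        rw [← pow_add]
        congr 1
        omega
      have h2 : (4 : ℝ) ≤ 4 ^ (R - n) := by
        have h3 : (4 : ℝ) ^ 1 ≤ 4 ^ (R - n) := pow_le_pow_right₀ (by norm_num) (by omega)
        simpa using h3
      have h4 : (4 : ℝ) ^ n * (4 * m') ≤ 4 ^ n * Y.card := by
        have h5 : (4 : ℝ) * m' ≤ 4 ^ (R - n) * m' := mul_le_mul_of_nonneg_right h2 (by linarith)
        have h6 := mul_le_mul_of_nonneg_left h5 (by positivity : (0 : ℝ) ≤ 4 ^ n)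
        rw [h1] at hY
        nlinarith
      exact le_of_mul_le_mul_left h4 (by positivity)
    have hYX : Y ⊆ X := hYY.trans hY₀X
    have hYW : Y ⊆ W := hYX.trans hXW
    have hYne : Y.Nonempty := by
      rw [← Finset.card_pos]
      have : (0 : ℝ) < Y.card := by linarith
      exact_mod_cast this
    obtain ⟨H, hH⟩ : ∃ H, H = W.filter (fun z => (Y.card : ℝ) < 2 * t * (nb G z ∩ Y).card) :=
      ⟨_, rfl⟩
    have hHc : (H.card : ℝ) ≤ 2 * t * d := by
      rw [hH]
      exact heavy_card hYW hYne hdeg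
    obtain ⟨F', hF'⟩ : ∃ F' : Finset V, F' = F ∪ ((nb G x ∩ W) ∪ ({x} ∪ (S ∪
      ((S.biUnion fun v => nb G v ∩ W) ∪ H)))) := ⟨_, rfl⟩
    have hF'c : (F'.card : ℝ) ≤ f' := by
      refine le_trans ?_ hF
      have hSc : (S.card : ℝ) ≤ R * t := by
        have h1 : S.card ≤ R * t := hh.trans (Nat.mul_le_mul_right _ (by omega))
        exact_mod_cast h1
      have hbu : (((S.biUnion fun v => nb G v ∩ W)).card : ℝ) ≤ S.card * d := by
        have h1 : ((S.biUnion fun v => nb G v ∩ W).card : ℝ) ≤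
            ∑ v ∈ S, ((nb G v ∩ W).card : ℝ) := by
          exact_mod_cast Finset.card_biUnion_le
        refine h1.trans ?_
        rw [← nsmul_eq_mul, ← Finset.sum_const]
        exact Finset.sum_le_sum fun v hv => hdeg v (hXW (he v hv).1)
      have hx1 : ((nb G x ∩ W).card : ℝ) ≤ d := hdeg x (hXW hx)
      have h1 : (F'.card : ℝ) ≤ F.card + ((nb G x ∩ W).card + (1 + (S.card +
          (((S.biUnion fun v => nb G v ∩ W)).card + H.card)))) := by
        rw [hF']
        have e1 := Finset.card_union_le F ((nb G x ∩ W) ∪ ({x} ∪ (S ∪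
          ((S.biUnion fun v => nb G v ∩ W) ∪ H))))
        have e2 := Finset.card_union_le (nb G x ∩ W) ({x} ∪ (S ∪
          ((S.biUnion fun v => nb G v ∩ W) ∪ H)))
        have e3 := Finset.card_union_le ({x} : Finset V) (S ∪
          ((S.biUnion fun v => nb G v ∩ W) ∪ H))
        have e4 := Finset.card_union_le S ((S.biUnion fun v => nb G v ∩ W) ∪ H)
        have e5 := Finset.card_union_le (S.biUnion fun v => nb G v ∩ W) H
        rw [Finset.card_singleton] at e3
        have : (F ∪ ((nb G x ∩ W) ∪ ({x} ∪ (S ∪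
          ((S.biUnion fun v => nb G v ∩ W) ∪ H))))).card ≤ F.card + ((nb G x ∩ W).card + (1 + (S.card +
          (((S.biUnion fun v => nb G v ∩ W)).card + H.card)))) := by omega
        exact_mod_cast this
      have h2 : (S.card : ℝ) * d ≤ R * t * d := mul_le_mul_of_nonneg_right hSc hd
      nlinarith
    have hFF' : F ⊆ F' := by rw [hF']; exact Finset.subset_union_left
    obtain ⟨y, hy, ψ', S', c1, c2, c3, c4, c5⟩ := hP Y F' hYX (by
      intro a ha
      refine le_trans ?_ (hσ a (hYY ha))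
      exact_mod_cast Finset.card_le_card (Finset.inter_subset_inter_left hYY)) (by linarith) hF'c
    have hyS' : y ∈ S' := by
      rw [← c2]
      exact c3 [] (inW_nil r h)
    have hyx : G.Adj x y := hY₀x y (hYY hy)
    have hnF : ∀ v ∈ S', v ≠ y → v ∈ X ∧ v ≠ x ∧ v ∉ F ∧ ¬ G.Adj x v ∧ v ∉ S ∧
        (∀ u ∈ S, ¬ G.Adj u v) ∧ 2 * t * ((nb G v ∩ Y).card : ℝ) ≤ Y.card := by
      intro v hv hvy
      obtain ⟨h1, h2⟩ := c4 v hv hvy
      have hvW := hXW h1
      rw [hF'] at h2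
      simp only [Finset.mem_union, Finset.mem_inter, Finset.mem_singleton, Finset.mem_biUnion,
        mem_nb, not_or, not_and, not_exists] at h2
      obtain ⟨h3, h4, h5, h6, h7, h8⟩ := h2
      refine ⟨h1, h5, h3, fun h => h4 h hvW, h6, fun u hu h => h7 u hu h hvW, ?_⟩
      rw [hH, Finset.mem_filter, not_and, not_lt] at h8
      exact h8 hvW
    have hword : ∀ l, inW r h l → l ≠ [] → ψ' l ≠ y := by
      intro l hl hne h1
      rw [← c2] at h1
      exact hne ((c1 l [] hl (inW_nil r h)).2 h1)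
    obtain ⟨Y', hY'⟩ : ∃ Y' : Finset V, Y' = Y \ (S' ∪ (S'.biUnion fun v => nb G v)) := ⟨_, rfl⟩
    have hY'Y : Y' ⊆ Y := by rw [hY']; exact Finset.sdiff_subset
    have hY'c : (Y.card : ℝ) ≤ 4 * Y'.card := by
      have h1 : (Y.card : ℝ) ≤ Y'.card + (1 + ∑ v ∈ S', ((nb G v ∩ Y).card : ℝ)) := by
        have h2 : Y ⊆ Y' ∪ ({y} ∪ S'.biUnion fun v => nb G v ∩ Y) := by
          intro z hz
          rw [hY']
          simp only [Finset.mem_union, Finset.mem_sdiff, Finset.mem_singleton, Finset.mem_biUnion,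
            Finset.mem_inter]
          by_cases hz1 : z = y
          · exact Or.inr (Or.inl hz1)
          by_cases hz2 : ∃ a ∈ S', z ∈ nb G a
          · obtain ⟨a, ha1, ha2⟩ := hz2
            exact Or.inr (Or.inr ⟨a, ha1, ha2, hz⟩)
          left
          refine ⟨hz, ?_⟩
          rintro (h3 | h3)
          · exact (hnF z h3 hz1).2.2.2.1 (hY₀x z (hYY hz))
          · exact hz2 h3
        have h3 := (Finset.card_le_card h2).trans (Finset.card_union_le _ _)
        have h4 := Finset.card_union_le ({y} : Finset V) (S'.biUnion fun v => nb G v ∩ Y)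
        rw [Finset.card_singleton] at h4
        have h5 : (S'.biUnion fun v => nb G v ∩ Y).card ≤ ∑ v ∈ S', (nb G v ∩ Y).card :=
          Finset.card_biUnion_le
        have h6 : Y.card ≤ Y'.card + (1 + ∑ v ∈ S', (nb G v ∩ Y).card) := by omega
        exact_mod_cast h6
      have h7 : ∑ v ∈ S', ((nb G v ∩ Y).card : ℝ) ≤ S'.card * (Y.card / (2 * t)) := by
        rw [← nsmul_eq_mul, ← Finset.sum_const]
        apply Finset.sum_le_sum
        intro v hv
        have ht0 : (0 : ℝ) < 2 * t := by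
          have : (1 : ℝ) ≤ t := by exact_mod_cast ht
          linarith
        rw [le_div_iff₀ ht0, mul_comm]
        by_cases hvy : v = y
        · have h8 : ((nb G v ∩ Y).card : ℝ) ≤ σ := by
            rw [hvy]
            refine le_trans ?_ (hσ y (hYY hy))
            exact_mod_cast Finset.card_le_card (Finset.inter_subset_inter_left hYY)
          have h9 := mul_le_mul_of_nonneg_left h8 ht0.le
          linarith
        · exact (hnF v hv hvy).2.2.2.2.2.2
      have h10 : (S'.card : ℝ) * (Y.card / (2 * t)) ≤ Y.card / 2 := by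
        have ht0 : (1 : ℝ) ≤ t := by exact_mod_cast ht
        have h11 : (S'.card : ℝ) ≤ t := by exact_mod_cast c5
        calc (S'.card : ℝ) * (Y.card / (2 * t)) ≤ t * (Y.card / (2 * t)) :=
              mul_le_mul_of_nonneg_right h11 (by positivity)
          _ = Y.card / 2 := by field_simp
      linarith
    refine ⟨fun i => if i < n then ψ i else ψ', S ∪ S', Y', ?_, ?_, ?_, ?_, ?_, ?_,
      hY'Y.trans hYY, ?_, ?_, ?_, ?_⟩
    · intro i hi
      dsimp only
      split_ifs with h1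
      · exact ha i h1
      · exact c1
    · intro i hi
      dsimp only
      split_ifs with h1
      · exact hb i h1
      · rw [c2]
        exact hYY hy
    · intro i hi l hl
      dsimp only
      rw [Finset.mem_union]
      split_ifs with h1
      · exact Or.inl (hc i h1 l hl)
      · exact Or.inr (c3 l hl)
    · intro i hi l hl hne
      dsimp only
      split_ifs with h1
      · exact hd' i h1 l hl hne
      · exact (hnF _ (c3 l hl) (hword l hl hne)).2.2.2.1
    · intro v hv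
      rw [Finset.mem_union] at hv
      rcases hv with hv | hv
      · exact he v hv
      · by_cases hvy : v = y
        · rw [hvy]
          exact ⟨hYX hy, hyx.ne', hY₀F y (hYY hy)⟩
        · obtain ⟨h1, h2, h3, _⟩ := hnF v hv hvy
          exact ⟨h1, h2, h3⟩
    · have key : ∀ i < n, ∀ l l', inW r h l → inW r h l' →
          ψ i l ≠ ψ' l' ∧ ¬ G.Adj (ψ i l) (ψ' l') := by
        intro i hi l l' hl hl'
        have h1 := hc i hi l hl
        by_cases hvy : ψ' l' = y
        · rw [hvy]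
          refine ⟨fun h2 => hg _ h1 (h2 ▸ hy), hg' _ h1 y hy⟩
        · obtain ⟨_, _, _, _, h5, h6, _⟩ := hnF _ (c3 l' hl') hvy
          exact ⟨fun h2 => h5 (h2 ▸ h1), h6 _ h1⟩
      intro i hi j hj hij l l' hl hl'
      dsimp only
      split_ifs with h1 h2 h2
      · exact hf i h1 j h2 hij l l' hl hl'
      · exact key i h1 l l' hl hl'
      · obtain ⟨h3, h4⟩ := key j h2 l' l hl' hl
        exact ⟨fun h => h3 h.symm, fun h => h4 h.symm⟩
      · omega
    · calc (Y₀.card : ℝ) ≤ 4 ^ n * Y.card := hYc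
        _ ≤ 4 ^ n * (4 * Y'.card) := mul_le_mul_of_nonneg_left hY'c (by positivity)
        _ = 4 ^ (n + 1) * Y'.card := by ring
    · intro v hv hvY'
      rw [Finset.mem_union] at hv
      rcases hv with hv | hv
      · exact hg v hv (hY'Y hvY')
      · rw [hY', Finset.mem_sdiff] at hvY'
        exact hvY'.2 (Finset.mem_union_left _ hv)
    · intro v hv z hz hadj
      rw [Finset.mem_union] at hv
      rcases hv with hv | hv
      · exact hg' v hv z (hY'Y hz) hadj
      · rw [hY', Finset.mem_sdiff] at hz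
        exact hz.2 (Finset.mem_union_right _ (Finset.mem_biUnion.2 ⟨v, hv, (mem_nb G v z).2 hadj⟩))
    · refine (Finset.card_union_le _ _).trans ?_
      rw [add_mul, one_mul]
      omega

open Classical in
/-- a copy rooted at `x` -/
theorem root_step {d σ m' f' f s κ : ℝ} {r h t : ℕ} {W X : Finset V} (hXW : X ⊆ W)
    (hd : 0 ≤ d) (hdeg : ∀ v ∈ W, ((nb G v ∩ W).card : ℝ) ≤ d)
    (hP : PP G X σ r h t m' f') (ht : 1 ≤ t) (hm4 : 4 ≤ m') (hmσ : 2 * t * σ ≤ m')
    (hK : ∀ x ∈ X, ∀ Z ⊆ nb G x ∩ X, ∃ Y ⊆ Z, κ * Z.card ≤ Y.card ∧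
      ∀ y ∈ Y, ((nb G y ∩ Y).card : ℝ) ≤ σ) (hκ : 0 ≤ κ)
    (hms : 4 ^ r * m' ≤ κ * s) (hff : f + (1 + d) * (1 + r * t) + 2 * t * d ≤ f')
    {x : V} (hx : x ∈ X) {F : Finset V} (hF : (F.card : ℝ) ≤ f)
    (hs : s ≤ ((nb G x ∩ X) \ F).card) : Cp G X F r (h + 1) (1 + r * t) x := by
  obtain ⟨Y₀, hY₀Z, hY₀c, hY₀σ⟩ := hK x hx ((nb G x ∩ X) \ F) Finset.sdiff_subset
  have hmem : ∀ y ∈ Y₀, G.Adj x y ∧ y ∈ X ∧ y ∉ F := by
    intro y hy
    have h1 := hY₀Z hy
    rw [Finset.mem_sdiff, Finset.mem_inter, mem_nb] at h1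
    exact ⟨h1.1.1, h1.1.2, h1.2⟩
  obtain ⟨ψ, S, Y, ha, hb, hc, hd', he, hf, _, _, _, _, hh⟩ := children (R := r) hXW hd hdeg hP ht
    hm4 hmσ hx (F := F) (Y₀ := Y₀) (fun y hy => (hmem y hy).2.1) (fun y hy => (hmem y hy).1)
    (fun y hy => (hmem y hy).2.2) hY₀σ
    (hms.trans ((mul_le_mul_of_nonneg_left hs hκ).trans hY₀c)) (by linarith) r le_rfl
  refine ⟨fun l => match l with
    | [] => x
    | a :: l => ψ a l, insert x S, ?_, rfl, ?_, ?_, ?_⟩
  · intro l l' hl hl'
    rcases l with _ | ⟨a, l⟩ <;> rcases l' with _ | ⟨b, l'⟩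
    · exact ⟨⟨fun h => absurd h (G.irrefl), fun h => absurd h adjW_nil_nil⟩, fun _ => rfl⟩
    · rw [inW_cons] at hl'
      dsimp only
      refine ⟨?_, fun h => absurd h.symm (he _ (hc b hl'.1 l' hl'.2)).2.1⟩
      rw [adjW_nil_cons]
      constructor
      · intro h
        by_contra hne
        exact hd' b hl'.1 l' hl'.2 hne h
      · rintro rfl
        exact (hmem _ (hb b hl'.1)).1
    · rw [inW_cons] at hl
      dsimp only
      refine ⟨?_, fun h => absurd h (he _ (hc a hl.1 l hl.2)).2.1⟩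
      rw [adjW_cons_nil, G.adj_comm]
      constructor
      · intro h
        by_contra hne
        exact hd' a hl.1 l hl.2 hne h
      · rintro rfl
        exact (hmem _ (hb a hl.1)).1
    · rw [inW_cons] at hl hl'
      dsimp only
      rw [adjW_cons_cons]
      by_cases hab : a = b
      · subst hab
        obtain ⟨h1, h2⟩ := ha a hl.1 l l' hl.2 hl'.2
        refine ⟨⟨fun h => ⟨rfl, h1.1 h⟩, fun h => h1.2 h.2⟩, fun h => ?_⟩
        rw [h2 h]
      · obtain ⟨h1, h2⟩ := hf a hl.1 b hl'.1 hab l l' hl.2 hl'.2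
        exact ⟨⟨fun h => absurd h h2, fun h => absurd h.1 hab⟩, fun h => absurd h h1⟩
  · intro l hl
    rcases l with _ | ⟨a, l⟩
    · exact Finset.mem_insert_self _ _
    · rw [inW_cons] at hl
      exact Finset.mem_insert_of_mem (hc a hl.1 l hl.2)
  · intro v hv hvx
    rw [Finset.mem_insert] at hv
    rcases hv with hv | hv
    · exact absurd hv hvx
    · exact ⟨(he v hv).1, (he v hv).2.2⟩
  · refine (Finset.card_insert_le _ _).trans ?_
    omega

open Classical in
/-- no violating pair -/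
def Good (G : SimpleGraph V) (X : Finset V) (σ s q : ℝ) : Prop :=
  ∀ A F : Finset V, A ⊆ X → A.Nonempty → (∀ a ∈ A, ((nb G a ∩ A).card : ℝ) ≤ σ) →
    (F.card : ℝ) ≤ q * A.card → ∃ a ∈ A, s < ((nb G a ∩ X) \ F).card

/-- the sizes of the complete trees -/
def tt (r : ℕ) : ℕ → ℕ
  | 0 => 1
  | h + 1 => 1 + r * tt r h

theorem tt_pos (r : ℕ) : ∀ h, 1 ≤ tt r h
  | 0 => le_rfl
  | _ + 1 => Nat.le_add_right _ _

theorem PP_zero {X : Finset V} {σ m f : ℝ} {r : ℕ} (hm : 0 < m) : PP G X σ r 0 1 m f := by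
  intro A F _ _ hA _
  obtain ⟨a, ha⟩ : A.Nonempty := by
    rw [← Finset.card_pos]
    have : (0 : ℝ) < A.card := by linarith
    exact_mod_cast this
  refine ⟨a, ha, fun _ => a, {a}, ?_, rfl, fun _ _ => Finset.mem_singleton_self _, ?_, by simp⟩
  · intro l l' hl hl'
    have h1 : l = [] := List.length_eq_zero_iff.1 (Nat.le_zero.1 hl.1)
    have h2 : l' = [] := List.length_eq_zero_iff.1 (Nat.le_zero.1 hl'.1)
    rw [h1, h2]
    exact ⟨⟨fun h => absurd h (G.irrefl), fun h => absurd h adjW_nil_nil⟩, fun _ => rfl⟩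
  · intro v hv hva
    exact absurd (Finset.mem_singleton.1 hv) hva

open Classical in
/-- **A set without violating pairs contains the complete tree.** -/
theorem good_copy {d σ κ : ℝ} {r H : ℕ} {W X : Finset V} (hXW : X ⊆ W) (hXne : X.Nonempty)
    (hd : 0 ≤ d) (hdeg : ∀ v ∈ W, ((nb G v ∩ W).card : ℝ) ≤ d) (hσ : 0 ≤ σ)
    (hK : ∀ x ∈ X, ∀ Z ⊆ nb G x ∩ X, ∃ Y ⊆ Z, κ * Z.card ≤ Y.card ∧
      ∀ y ∈ Y, ((nb G y ∩ Y).card : ℝ) ≤ σ) (hκ : 0 ≤ κ)
    (m f s q : ℕ → ℝ) (hgood : ∀ j < H, Good G X σ (s (j + 1)) (q (j + 1)))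
    (hq : ∀ j < H, 0 ≤ q (j + 1)) (hf0 : 0 ≤ f H)
    (h2 : ∀ j < H, f (j + 1) ≤ q (j + 1) * m (j + 1))
    (h3 : ∀ j < H, 4 ^ r * m j ≤ κ * s (j + 1))
    (h4 : ∀ j < H, f (j + 1) + (1 + d) * (1 + r * tt r j) + 2 * tt r j * d ≤ f j)
    (h5 : ∀ j < H, 4 ≤ m j) (h6 : ∀ j < H, 2 * tt r j * σ ≤ m j) (hH : 1 ≤ H) :
    ∃ ψ, IsCopy G r H ψ := by
  have hPP : ∀ j, j < H → PP G X σ r j (tt r j) (m j) (f j) := by
    intro j
    induction j with
    | zero =>
      intro hj
      exact PP_zero (by linarith [h5 0 hj])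
    | succ j ih =>
      intro hj A F hAX hAσ hAm hFf
      have hj' : j < H := by omega
      have hm1 : 4 ≤ m (j + 1) := h5 (j + 1) hj
      have hAne : A.Nonempty := by
        rw [← Finset.card_pos]
        have : (0 : ℝ) < A.card := by linarith
        exact_mod_cast this
      obtain ⟨a, ha, has⟩ := hgood j hj' A F hAX hAne hAσ
        (hFf.trans ((h2 j hj').trans (mul_le_mul_of_nonneg_left hAm (hq j hj'))))
      exact ⟨a, ha, root_step hXW hd hdeg (ih hj') (tt_pos r j) (h5 j hj') (h6 j hj') hK hκ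
        (h3 j hj') (h4 j hj') (hAX ha) hFf has.le⟩
  obtain ⟨j, rfl⟩ : ∃ j, H = j + 1 := ⟨H - 1, by omega⟩
  obtain ⟨x, hx⟩ := hXne
  obtain ⟨a, ha, has⟩ := hgood j (by omega) {x} ∅ (by simpa using hx) (by simp) (by
    intro a ha
    rw [Finset.mem_singleton] at ha
    subst ha
    have : nb G a ∩ {a} = ∅ := by
      ext z
      simp only [Finset.mem_inter, mem_nb, Finset.mem_singleton, Finset.notMem_empty, iff_false,
        not_and]
      rintro h rfl
      exact G.irrefl h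
    rw [this]
    simpa using hσ) (by simpa using hq j (by omega))
  rw [Finset.mem_singleton] at ha
  subst ha
  obtain ⟨ψ, S, hψ, _⟩ := root_step hXW hd hdeg (hPP j (by omega)) (tt_pos r j) (h5 j (by omega))
    (h6 j (by omega)) hK hκ (h3 j (by omega)) (h4 j (by omega)) hx
    (F := ∅) (by simpa using hf0) has.le
  exact ⟨ψ, hψ⟩

end Pool.Agent.J4.H30.NL
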