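import Pool.Agent.J4.H30.NL.Core

set_option autoImplicit false

/-!
# Extraction of violating pairs
-/

namespace Pool.Agent.J4.H30.NL

open Finset Pool.Agent.Y394.AT

variable {V : Type} [Fintype V] {G : SimpleGraph V}

open Classical in
theorem extract {σ : ℝ} (H : ℕ) (s q : ℕ → ℝ) :
    ∀ (n : ℕ) (X : Finset V), X.card = n →
      (∀ X' ⊆ X, X'.Nonempty → ∃ j < H, ¬ Good G X' σ (s j) (q j)) →
      ∃ U : ℕ → Finset V, (∀ j, U j ⊆ X) ∧
        (X.card : ℝ) ≤ ∑ j ∈ range H, (1 + q j) * ((U j).card : ℝ) ∧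
        ∀ j < H, ∑ u ∈ U j, ((nb G u ∩ U j).card : ℝ) ≤ (2 * s j + σ) * (U j).card := by
  intro n
  induction n using Nat.strong_induction_on with
  | _ n ih =>
    intro X hXn hbad
    rcases X.eq_empty_or_nonempty with rfl | hX
    · refine ⟨fun _ => ∅, fun _ => Finset.Subset.refl _, ?_, fun j _ => by simp⟩
      simp
    obtain ⟨j, hj, hng⟩ := hbad X (Finset.Subset.refl _) hX
    unfold Good at hng
    push Not at hng
    obtain ⟨A, F, hAX, hAne, hAσ, hFq, hAs⟩ := hng
    obtain ⟨X', hX'⟩ : ∃ X' : Finset V, X' = X \ (A ∪ F) := ⟨_, rfl⟩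
    have hX'X : X' ⊆ X := by rw [hX']; exact Finset.sdiff_subset
    have hlt : X'.card < n := by
      rw [← hXn]
      apply Finset.card_lt_card
      refine Finset.ssubset_iff_subset_ne.2 ⟨hX'X, ?_⟩
      intro h
      obtain ⟨a, ha⟩ := hAne
      have h1 := hAX ha
      rw [← h, hX', Finset.mem_sdiff] at h1
      exact h1.2 (Finset.mem_union_left _ ha)
    obtain ⟨U', hU'X, hU'c, hU'e⟩ := ih X'.card hlt X' rfl
      (fun Y hY hYne => hbad Y (hY.trans hX'X) hYne)
    have hdis : Disjoint (U' j) A := by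
      rw [Finset.disjoint_left]
      intro z hz hzA
      have h1 := hU'X j hz
      rw [hX', Finset.mem_sdiff] at h1
      exact h1.2 (Finset.mem_union_left _ hzA)
    refine ⟨fun i => if i = j then U' j ∪ A else U' i, ?_, ?_, ?_⟩
    · intro i
      dsimp only
      split_ifs with h
      · exact Finset.union_subset ((hU'X j).trans hX'X) hAX
      · exact (hU'X i).trans hX'X
    · have h1 : ∑ i ∈ range H, (1 + q i) * (((if i = j then U' j ∪ A else U' i : Finset V)).card : ℝ)
          = ∑ i ∈ range H, (1 + q i) * ((U' i).card : ℝ) + (1 + q j) * A.card := by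
        have h2 : ∀ i ∈ range H, (1 + q i) *
            (((if i = j then U' j ∪ A else U' i : Finset V)).card : ℝ) =
            (1 + q i) * ((U' i).card : ℝ) + (if i = j then (1 + q j) * (A.card : ℝ) else 0) := by
          intro i _
          split_ifs with h
          · rw [h, Finset.card_union_of_disjoint hdis]
            push_cast
            ring
          · ring
        rw [Finset.sum_congr rfl h2, Finset.sum_add_distrib, Finset.sum_ite_eq' (range H) j,
          if_pos (Finset.mem_range.2 hj)]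
      rw [h1]
      have h3 : X ⊆ X' ∪ (A ∪ F) := by
        rw [hX']
        intro z hz
        rw [Finset.mem_union, Finset.mem_sdiff]
        by_cases h : z ∈ A ∪ F
        · exact Or.inr h
        · exact Or.inl ⟨hz, h⟩
      have h4 : (X.card : ℝ) ≤ X'.card + (A.card + F.card) := by
        have h5 := (Finset.card_le_card h3).trans (Finset.card_union_le _ _)
        have h6 := Finset.card_union_le A F
        have h7 : X.card ≤ X'.card + (A.card + F.card) := by omega
        exact_mod_cast h7
      linarith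
    · intro i hi
      dsimp only
      split_ifs with h
      · subst h
        have h1 : ∀ u, ((nb G u ∩ (U' i ∪ A)).card : ℝ) ≤
            (nb G u ∩ U' i).card + (nb G u ∩ A).card := by
          intro u
          rw [Finset.inter_union_distrib_left]
          exact_mod_cast Finset.card_union_le _ _
        rw [Finset.sum_union hdis, Finset.card_union_of_disjoint hdis]
        have h2 : ∑ u ∈ U' i, ((nb G u ∩ (U' i ∪ A)).card : ℝ) ≤
            ∑ u ∈ U' i, ((nb G u ∩ U' i).card : ℝ) + ∑ u ∈ U' i, ((nb G u ∩ A).card : ℝ) := by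
          rw [← Finset.sum_add_distrib]
          exact Finset.sum_le_sum fun u _ => h1 u
        have h3 : ∑ u ∈ A, ((nb G u ∩ (U' i ∪ A)).card : ℝ) ≤
            ∑ u ∈ A, ((nb G u ∩ U' i).card : ℝ) + ∑ u ∈ A, ((nb G u ∩ A).card : ℝ) := by
          rw [← Finset.sum_add_distrib]
          exact Finset.sum_le_sum fun u _ => h1 u
        rw [sum_nb_comm (U' i) A] at h2
        have h4 : ∑ u ∈ A, ((nb G u ∩ U' i).card : ℝ) ≤ A.card * s i := by
          rw [← nsmul_eq_mul, ← Finset.sum_const]
          apply Finset.sum_le_sum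
          intro a ha
          refine le_trans ?_ (hAs a ha)
          have h5 : nb G a ∩ U' i ⊆ (nb G a ∩ X) \ F := by
            intro z hz
            rw [Finset.mem_inter] at hz
            have h6 := hU'X i hz.2
            rw [hX', Finset.mem_sdiff, Finset.mem_union, not_or] at h6
            rw [Finset.mem_sdiff, Finset.mem_inter]
            exact ⟨⟨hz.1, h6.1⟩, h6.2.2⟩
          exact_mod_cast Finset.card_le_card h5
        have h5 : ∑ u ∈ A, ((nb G u ∩ A).card : ℝ) ≤ A.card * σ := by
          rw [← nsmul_eq_mul, ← Finset.sum_const]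
          exact Finset.sum_le_sum fun a ha => hAσ a ha
        have h6 := hU'e i hi
        push_cast
        linarith
      · exact hU'e i hi

open Classical in
/-- the alternative to a good subset -/
theorem low_set {σ : ℝ} {H : ℕ} (hH : 1 ≤ H) (s q : ℕ → ℝ) (hq : ∀ j < H, 0 ≤ q j)
    (hs : ∀ j < H, 0 < 2 * s j + σ) (W : Finset V)
    (hbad : ∀ X' ⊆ W, X'.Nonempty → ∃ j < H, ¬ Good G X' σ (s j) (q j)) :
    ∃ j < H, ∃ U ⊆ W, (W.card : ℝ) ≤ 2 * H * (1 + q j) * U.card ∧
      ∀ u ∈ U, ((nb G u ∩ U).card : ℝ) ≤ 2 * (2 * s j + σ) := by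
  obtain ⟨U, hUW, hUc, hUe⟩ := extract (σ := σ) H s q W.card W rfl hbad
  obtain ⟨j, hj, hjc⟩ : ∃ j ∈ range H, (W.card : ℝ) / H ≤ (1 + q j) * ((U j).card : ℝ) := by
    by_contra hcon
    push Not at hcon
    have h1 : ∑ j ∈ range H, (1 + q j) * ((U j).card : ℝ) < ∑ j ∈ range H, (W.card : ℝ) / H :=
      Finset.sum_lt_sum_of_nonempty ⟨0, Finset.mem_range.2 (by omega)⟩ (fun r hr => hcon r hr)
    have hH0 : (0 : ℝ) < H := by exact_mod_cast hH
    rw [Finset.sum_const, Finset.card_range, nsmul_eq_mul, mul_div_cancel₀ _ hH0.ne'] at h1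
    linarith
  rw [Finset.mem_range] at hj
  have hH0 : (0 : ℝ) < H := by exact_mod_cast hH
  have hD := hs j hj
  obtain ⟨D, hDd⟩ : ∃ D, D = 2 * s j + σ := ⟨_, rfl⟩
  rw [← hDd] at hD
  have he := hUe j hj
  rw [← hDd] at he
  obtain ⟨B, hB⟩ : ∃ B : Finset V, B = (U j).filter (fun u => ((nb G u ∩ U j).card : ℝ) ≤ 2 * D) :=
    ⟨_, rfl⟩
  have hBU : B ⊆ U j := by rw [hB]; exact Finset.filter_subset _ _
  have hBc : ((U j).card : ℝ) ≤ 2 * B.card := by
    have h1 : (((U j) \ B).card : ℝ) * (2 * D) ≤ D * (U j).card := by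
      calc (((U j) \ B).card : ℝ) * (2 * D) = ∑ u ∈ (U j) \ B, 2 * D := by
            rw [Finset.sum_const, nsmul_eq_mul]
        _ ≤ ∑ u ∈ (U j) \ B, ((nb G u ∩ U j).card : ℝ) := by
            apply Finset.sum_le_sum
            intro u hu
            rw [Finset.mem_sdiff, hB, Finset.mem_filter, not_and, not_le] at hu
            exact (hu.2 hu.1).le
        _ ≤ ∑ u ∈ U j, ((nb G u ∩ U j).card : ℝ) :=
            Finset.sum_le_sum_of_subset_of_nonneg Finset.sdiff_subset
              (fun _ _ _ => Nat.cast_nonneg _)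
        _ ≤ D * (U j).card := he
    have h2 : (((U j) \ B).card : ℝ) = (U j).card - B.card := by
      rw [Finset.card_sdiff_of_subset hBU, Nat.cast_sub (Finset.card_le_card hBU)]
    rw [h2] at h1
    nlinarith
  refine ⟨j, hj, B, hBU.trans (hUW j), ?_, ?_⟩
  · rw [div_le_iff₀ hH0] at hjc
    have hq1 : 0 ≤ 1 + q j := by linarith [hq j hj]
    calc (W.card : ℝ) ≤ (1 + q j) * ((U j).card : ℝ) * H := hjc
      _ ≤ (1 + q j) * (2 * B.card) * H := by
          apply mul_le_mul_of_nonneg_right _ hH0.le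
          exact mul_le_mul_of_nonneg_left hBc hq1
      _ = _ := by ring
  · intro u hu
    have h1 := hu
    rw [hB, Finset.mem_filter] at h1
    rw [← hDd]
    refine le_trans ?_ h1.2
    exact_mod_cast Finset.card_le_card (Finset.inter_subset_inter_left hBU)

end Pool.Agent.J4.H30.NL
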