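import Pool.Agent.J4.H30.NL.Core

set_option autoImplicit false

/-!
# Lovász' partition
-/

namespace Pool.Agent.J4.H30.NL

open Finset Pool.Agent.Y394.AT

variable {V : Type} [Fintype V]

open Classical in
theorem lovasz (G : SimpleGraph V) (W : Finset V) (N : ℕ) (hN : 1 ≤ N) :
    ∃ c : V → Fin N, ∀ v ∈ W,
      (N : ℝ) * (((nb G v ∩ W).filter (fun w => c w = c v)).card : ℝ) ≤ (nb G v ∩ W).card := by
  obtain ⟨I, hI⟩ : ∃ I : (V → Fin N) → V → V → ℝ, I = fun c u w =>
    if G.Adj u w ∧ c w = c u then (1 : ℝ) else 0 := ⟨_, rfl⟩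
  obtain ⟨Φ, hΦ⟩ : ∃ Φ : (V → Fin N) → ℝ, Φ = fun c => ∑ u ∈ W, ∑ w ∈ W, I c u w := ⟨_, rfl⟩
  have hne : Nonempty (Fin N) := ⟨⟨0, by omega⟩⟩
  obtain ⟨c, _, hc⟩ := Finset.exists_min_image (Finset.univ : Finset (V → Fin N)) Φ
    Finset.univ_nonempty
  refine ⟨c, ?_⟩
  intro v hv
  have hsym : ∀ c u w, I c u w = I c w u := by
    intro c u w
    rw [hI]
    dsimp only
    simp only [G.adj_comm u w, eq_comm]
  have hself : ∀ c u, I c u u = 0 := by
    intro c u
    rw [hI]
    dsimp only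
    rw [if_neg]
    rintro ⟨h, _⟩
    exact G.irrefl h
  have hsplit : ∀ c, Φ c = ∑ u ∈ W.erase v, ∑ w ∈ W.erase v, I c u w +
      2 * ∑ w ∈ W.erase v, I c v w := by
    intro c
    rw [hΦ]
    dsimp only
    rw [← Finset.sum_erase_add W _ hv]
    have h1 : ∀ u, ∑ w ∈ W, I c u w = ∑ w ∈ W.erase v, I c u w + I c u v :=
      fun u => (Finset.sum_erase_add W _ hv).symm
    rw [Finset.sum_congr rfl (fun u _ => h1 u), Finset.sum_add_distrib, h1 v, hself,
      Finset.sum_congr rfl (fun u _ => hsym c u v)]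
    ring
  have hcnt : ∀ i : Fin N, ∑ w ∈ W.erase v, I c v w ≤
      ∑ w ∈ W.erase v, if G.Adj v w ∧ c w = i then (1 : ℝ) else 0 := by
    intro i
    have h1 := hc (Function.update c v i) (Finset.mem_univ _)
    rw [hsplit c, hsplit (Function.update c v i)] at h1
    have h2 : ∑ u ∈ W.erase v, ∑ w ∈ W.erase v, I (Function.update c v i) u w =
        ∑ u ∈ W.erase v, ∑ w ∈ W.erase v, I c u w := by
      apply Finset.sum_congr rfl
      intro u hu
      apply Finset.sum_congr rfl
      intro w hw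
      rw [hI]
      dsimp only
      rw [Function.update_of_ne (Finset.ne_of_mem_erase hu),
        Function.update_of_ne (Finset.ne_of_mem_erase hw)]
    have h3 : ∑ w ∈ W.erase v, I (Function.update c v i) v w =
        ∑ w ∈ W.erase v, if G.Adj v w ∧ c w = i then (1 : ℝ) else 0 := by
      apply Finset.sum_congr rfl
      intro w hw
      rw [hI]
      dsimp only
      rw [Function.update_self, Function.update_of_ne (Finset.ne_of_mem_erase hw)]
    rw [h2, h3] at h1
    linarith
  have hcard : ∀ i : Fin N, ∑ w ∈ W.erase v, (if G.Adj v w ∧ c w = i then (1 : ℝ) else 0) =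
      (((nb G v ∩ W).filter (fun w => c w = i)).card : ℝ) := by
    intro i
    rw [← Finset.sum_filter, Finset.sum_const, nsmul_eq_mul, mul_one]
    congr 2
    ext w
    simp only [Finset.mem_filter, Finset.mem_erase, Finset.mem_inter, mem_nb]
    constructor
    · rintro ⟨⟨_, h2⟩, h3, h4⟩
      exact ⟨⟨h3, h2⟩, h4⟩
    · rintro ⟨⟨h1, h2⟩, h3⟩
      exact ⟨⟨h1.ne', h2⟩, h1, h3⟩
  have hown : ∑ w ∈ W.erase v, I c v w = (((nb G v ∩ W).filter (fun w => c w = c v)).card : ℝ) := by
    rw [← hcard (c v), hI]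
  have hsum : ∑ i : Fin N, (((nb G v ∩ W).filter (fun w => c w = i)).card : ℝ) =
      (nb G v ∩ W).card := by
    have := Finset.card_eq_sum_card_fiberwise (f := c) (s := nb G v ∩ W) (t := Finset.univ)
      (fun _ _ => Finset.mem_coe.2 (Finset.mem_univ _))
    rw [this]
    push_cast
    rfl
  calc (N : ℝ) * (((nb G v ∩ W).filter (fun w => c w = c v)).card : ℝ) =
        ∑ i : Fin N, (((nb G v ∩ W).filter (fun w => c w = c v)).card : ℝ) := by
        rw [Finset.sum_const, Finset.card_univ, Fintype.card_fin, nsmul_eq_mul]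
    _ ≤ ∑ i : Fin N, (((nb G v ∩ W).filter (fun w => c w = i)).card : ℝ) := by
        apply Finset.sum_le_sum
        intro i _
        rw [← hown, ← hcard i]
        exact hcnt i
    _ = _ := hsum

open Classical in
theorem triv (G : SimpleGraph V) (W : Finset V) (d : ℝ)
    (hdeg : ∀ v ∈ W, ((nb G v ∩ W).card : ℝ) ≤ d) (N : ℕ) (hN : 1 ≤ N) :
    ∃ X ⊆ W, (W.card : ℝ) ≤ N * X.card ∧ ∀ v ∈ X, (N : ℝ) * ((nb G v ∩ X).card : ℝ) ≤ d := by
  obtain ⟨c, hc⟩ := lovasz G W N hN
  have hne : Nonempty (Fin N) := ⟨⟨0, by omega⟩⟩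
  obtain ⟨i, _, hi⟩ := Finset.exists_max_image (Finset.univ : Finset (Fin N))
    (fun i => (W.filter (fun v => c v = i)).card) Finset.univ_nonempty
  refine ⟨W.filter (fun v => c v = i), Finset.filter_subset _ _, ?_, ?_⟩
  · have h1 := Finset.card_eq_sum_card_fiberwise (f := c) (s := W) (t := Finset.univ)
      (fun _ _ => Finset.mem_coe.2 (Finset.mem_univ _))
    have h2 : W.card ≤ N * (W.filter (fun v => c v = i)).card := by
      rw [h1]
      calc ∑ j : Fin N, (W.filter (fun v => c v = j)).card ≤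
            ∑ j : Fin N, (W.filter (fun v => c v = i)).card :=
            Finset.sum_le_sum fun j _ => hi j (Finset.mem_univ _)
        _ = _ := by rw [Finset.sum_const, Finset.card_univ, Fintype.card_fin, smul_eq_mul]
    exact_mod_cast h2
  · intro v hv
    rw [Finset.mem_filter] at hv
    refine le_trans ?_ ((hc v hv.1).trans (hdeg v hv.1))
    apply mul_le_mul_of_nonneg_left _ (Nat.cast_nonneg _)
    have h1 : nb G v ∩ W.filter (fun v => c v = i) ⊆ (nb G v ∩ W).filter (fun w => c w = c v) := by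
      intro w hw
      rw [Finset.mem_inter, Finset.mem_filter] at hw
      rw [Finset.mem_filter, Finset.mem_inter]
      exact ⟨⟨hw.1, hw.2.1⟩, hw.2.2.trans hv.2.symm⟩
    exact_mod_cast Finset.card_le_card h1

end Pool.Agent.J4.H30.NL
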