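import Pool.Agent.J4.H30.NL.Step
import Pool.Agent.J4.H30.NL.Triv

set_option autoImplicit false

/-!
# Large sparse sets
-/

namespace Pool.Agent.J4.H30.NL

open Finset Pool.Agent.Y394.AT Real

open Classical in
/-- the main statement for graphs without cliques on `k + 1` vertices -/
def MainS (r H k : ℕ) (C θ : ℝ) : Prop :=
  ∀ (V : Type) [Fintype V] (G : SimpleGraph V), (¬ ∃ ψ, IsCopy G r H ψ) → ∀ W : Finset V,
    G.CliqueFreeOn (W : Set V) (k + 1) → ∀ d L : ℝ, 0 ≤ L →
    (∀ v ∈ W, ((nb G v ∩ W).card : ℝ) ≤ d) →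
    ∃ X ⊆ W, exp (-(C * (1 + L) ^ θ)) * W.card ≤ X.card ∧
      ∀ v ∈ X, ((nb G v ∩ X).card : ℝ) ≤ d * exp (-L)

open Classical in
theorem main_ind (r H k : ℕ) (hH : 1 ≤ H) (C' θ' : ℝ) (hC' : 0 ≤ C') (hθ'0 : 0 ≤ θ')
    (hθ'1 : θ' < 1) (hM : MainS r H k C' θ') :
    ∃ C θ : ℝ, 0 ≤ C ∧ 1 / 2 ≤ θ ∧ θ < 1 ∧ MainS r H (k + 1) C θ := by
  obtain ⟨K, hK1, hstep⟩ := sparse_step r H hH
  have hHr : (1 : ℝ) ≤ H := by exact_mod_cast hH
  obtain ⟨c, hc⟩ : ∃ c : ℝ, c = (1 - θ') / (H + 1) := ⟨_, rfl⟩
  have hc0 : 0 < c := by
    rw [hc]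
    apply div_pos (by linarith) (by linarith)
  have hc12 : c ≤ 1 / 2 := by
    rw [hc, div_le_iff₀ (by linarith)]
    linarith
  have hcH : c * H ≤ 1 - θ' := by
    rw [hc, div_mul_eq_mul_div, div_le_iff₀ (by linarith)]
    nlinarith
  obtain ⟨θ, hθ⟩ : ∃ θ : ℝ, θ = 1 - c := ⟨_, rfl⟩
  have hθ12 : 1 / 2 ≤ θ := by linarith
  have hθ1 : θ < 1 := by linarith
  obtain ⟨B, hB⟩ : ∃ B : ℝ, B = 32 * (8 * (C' + K) + 1) := ⟨_, rfl⟩
  have hB32 : 32 ≤ B := by rw [hB]; linarith
  obtain ⟨C, hC⟩ : ∃ C : ℝ, C = B / θ := ⟨_, rfl⟩
  have hCB : B ≤ C := by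
    rw [hC, le_div_iff₀ (by linarith)]
    nlinarith
  refine ⟨C, θ, by linarith, hθ12, hθ1, ?_⟩
  intro V _ G hno
  -- the core
  have core : ∀ n : ℕ, ∀ W : Finset V, G.CliqueFreeOn (W : Set V) (k + 1 + 1) → ∀ d L : ℝ, 0 ≤ L →
      L ≤ n → exp L ≤ 2 * d → (∀ v ∈ W, ((nb G v ∩ W).card : ℝ) ≤ d) →
      ∃ X ⊆ W, exp (-(C * (1 + L) ^ θ)) * W.card ≤ X.card ∧
        ∀ v ∈ X, ((nb G v ∩ X).card : ℝ) ≤ d * exp (-L) := by
    intro n
    induction n with
    | zero =>
      intro W _ d L hL hLn _ hdeg
      have hL0 : L = 0 := le_antisymm (by simpa using hLn) hL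
      refine ⟨W, Finset.Subset.refl _, ?_, ?_⟩
      · have h1 : exp (-(C * (1 + L) ^ θ)) ≤ 1 := by
          rw [Real.exp_le_one_iff, Left.neg_nonpos_iff]
          apply mul_nonneg (by linarith) (Real.rpow_nonneg (by linarith) _)
        have := mul_le_mul_of_nonneg_right h1 (Nat.cast_nonneg (α := ℝ) W.card)
        linarith
      · intro v hv
        rw [hL0]
        simpa using hdeg v hv
    | succ n ih =>
      intro W hW d L hL hLn hLd hdeg
      rcases W.eq_empty_or_nonempty with rfl | hWne
      · exact ⟨∅, Finset.Subset.refl _, by simp, by simp⟩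
      have hd0 : 0 < d := by linarith [Real.exp_pos L]
      obtain ⟨x, hx⟩ : ∃ x : ℝ, x = 1 + L := ⟨_, rfl⟩
      have hx1 : 1 ≤ x := by linarith
      have hx0 : 0 < x := by linarith
      rw [← hx]
      by_cases hcase : x ^ c < B
      · -- few vertices are lost
        obtain ⟨N, hN⟩ : ∃ N : ℕ, N = ⌈exp L⌉₊ := ⟨_, rfl⟩
        have hNL : exp L ≤ N := by rw [hN]; exact Nat.le_ceil _
        have hNU : (N : ℝ) ≤ exp x := by
          have h1 : (N : ℝ) < exp L + 1 := by rw [hN]; exact Nat.ceil_lt_add_one (Real.exp_pos _).le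
          have h2 : (1 : ℝ) ≤ exp L := by linarith [Real.add_one_le_exp L]
          have h3 : exp x = exp 1 * exp L := by rw [hx, Real.exp_add]
          have h4 := Real.add_one_le_exp (1 : ℝ)
          rw [h3]
          nlinarith
        have hN1 : 1 ≤ N := by
          have : (0 : ℝ) < N := lt_of_lt_of_le (Real.exp_pos _) hNL
          have : 0 < N := by exact_mod_cast this
          omega
        obtain ⟨X, hXW, hXc, hXd⟩ := triv G W d hdeg N hN1
        refine ⟨X, hXW, ?_, ?_⟩
        · have h1 : x ≤ C * x ^ θ := by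
            have h2 : x = x ^ θ * x ^ c := by
              rw [← Real.rpow_add hx0, hθ]
              simp
            calc x = x ^ θ * x ^ c := h2
              _ ≤ x ^ θ * C := mul_le_mul_of_nonneg_left (by linarith) (Real.rpow_nonneg hx0.le _)
              _ = _ := mul_comm _ _
          have h3 : exp (-(C * x ^ θ)) ≤ exp (-x) := Real.exp_le_exp.2 (by linarith)
          calc exp (-(C * x ^ θ)) * W.card ≤ exp (-x) * W.card :=
                mul_le_mul_of_nonneg_right h3 (Nat.cast_nonneg _)
            _ ≤ exp (-x) * (exp x * X.card) := by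
                apply mul_le_mul_of_nonneg_left _ (Real.exp_pos _).le
                exact hXc.trans (mul_le_mul_of_nonneg_right hNU (Nat.cast_nonneg _))
            _ = X.card := by
                rw [← mul_assoc, ← Real.exp_add]
                simp
        · intro v hv
          have h1 := hXd v hv
          have h2 : exp L * ((nb G v ∩ X).card : ℝ) ≤ d :=
            (mul_le_mul_of_nonneg_right hNL (Nat.cast_nonneg _)).trans h1
          calc ((nb G v ∩ X).card : ℝ) = exp (-L) * (exp L * ((nb G v ∩ X).card : ℝ)) := by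
                rw [← mul_assoc, ← Real.exp_add]
                simp
            _ ≤ exp (-L) * d := mul_le_mul_of_nonneg_left h2 (Real.exp_pos _).le
            _ = _ := mul_comm _ _
      · push Not at hcase
        have hxc0 : 0 < x ^ c := Real.rpow_pos_of_pos hx0 _
        have hxx : x ^ c ≤ x := by
          calc x ^ c ≤ x ^ (1 : ℝ) := Real.rpow_le_rpow_of_exponent_le hx1 (by linarith)
            _ = x := Real.rpow_one x
        obtain ⟨β, hβ⟩ : ∃ β : ℝ, β = B * x ^ (-c) := ⟨_, rfl⟩
        have hβ0 : 0 < β := by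
          rw [hβ]
          exact mul_pos (by linarith) (Real.rpow_pos_of_pos hx0 _)
        have hβ1 : β ≤ 1 := by
          rw [hβ, Real.rpow_neg hx0.le, ← div_eq_mul_inv, div_le_one hxc0]
          exact hcase
        have hL2 : x / 8 ≤ L / 4 := by linarith
        have hbig : (C' + K) * x ^ θ' ≤ (β / 32) ^ H * (L / 4) := by
          have h1 : (β / 32) ^ H = (B / 32) ^ H * x ^ (-(c * H)) := by
            rw [hβ, mul_div_right_comm, mul_pow, ← Real.rpow_mul_natCast hx0.le]
            congr 2
            ring
          have h2 : 8 * (C' + K) ≤ (B / 32) ^ H := by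
            have h3 : B / 32 = 8 * (C' + K) + 1 := by rw [hB]; ring
            have h4 : (B / 32) ^ 1 ≤ (B / 32) ^ H :=
              pow_le_pow_right₀ (by rw [h3]; linarith) hH
            rw [pow_one, h3] at h4
            rw [h3]
            linarith
          have h5 : x ^ θ' ≤ x ^ (-(c * H)) * x := by
            have h6 : x ^ (-(c * H)) * x = x ^ (-(c * H) + 1) := by
              rw [Real.rpow_add hx0, Real.rpow_one]
            rw [h6]
            exact Real.rpow_le_rpow_of_exponent_le hx1 (by linarith)
          have h7 : 0 ≤ x ^ (-(c * H)) := Real.rpow_nonneg hx0.le _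
          rw [h1]
          calc (C' + K) * x ^ θ' ≤ (C' + K) * (x ^ (-(c * H)) * x) :=
                mul_le_mul_of_nonneg_left h5 (by linarith)
            _ = (8 * (C' + K)) * (x ^ (-(c * H)) * (x / 8)) := by ring
            _ ≤ (B / 32) ^ H * (x ^ (-(c * H)) * (L / 4)) := by
                apply mul_le_mul h2 _ (by positivity) (by positivity)
                exact mul_le_mul_of_nonneg_left hL2 h7
            _ = _ := by ring
        have hxθ' : 1 ≤ x ^ θ' := Real.one_le_rpow hx1 hθ'0
        have hb1 : K ≤ (β / 32) ^ H * (L / 4) := by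
          refine le_trans ?_ hbig
          nlinarith
        have hb2 : exp (-((β / 32) ^ H * (L / 4))) ≤ exp (-(C' * (1 + L) ^ θ')) := by
          apply Real.exp_le_exp.2
          rw [← hx]
          have h1 : 0 ≤ K * x ^ θ' := by positivity
          linarith
        obtain ⟨ε, hε1, hε2, U, hUW, hUc, hUd⟩ := hstep V G W d L β _ hWne hdeg hβ0 hβ1 hL hLd
          hb1 hb2 (by
            intro y hy Z hZ
            refine hM V G hno Z ?_ d L hL ?_
            · intro t ht ht2
              have hyt : y ∉ t := by
                intro h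
                have h1 := hZ (ht h)
                rw [Finset.mem_inter, mem_nb] at h1
                exact G.irrefl h1.1
              refine hW (t := insert y t) ?_ (ht2.insert ?_)
              · intro z hz
                rw [Finset.coe_insert, Set.mem_insert_iff] at hz
                rcases hz with rfl | hz
                · exact hy
                · exact Finset.mem_coe.2 (Finset.mem_inter.1 (hZ (ht hz))).2
              · intro z hz
                have h1 := hZ (ht hz)
                rw [Finset.mem_inter, mem_nb] at h1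
                exact h1.1
            · intro v _
              refine le_trans ?_ (hdeg y hy)
              have h1 : (nb G v ∩ Z).card ≤ (nb G y ∩ W).card :=
                (Finset.card_le_card Finset.inter_subset_right).trans (Finset.card_le_card hZ)
              exact_mod_cast h1) hno
        have hε0 : 1 ≤ ε := hK1.trans hε1
        obtain ⟨X, hXU, hXc, hXd⟩ := ih U (fun t ht => hW (ht.trans (Finset.coe_subset.2 hUW)))
          (d * exp (-ε)) (L - ε) (by linarith) (by push_cast at hLn; linarith) (by
            rw [sub_eq_add_neg, Real.exp_add]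
            have := mul_le_mul_of_nonneg_right hLd (Real.exp_pos (-ε)).le
            linarith) hUd
        refine ⟨X, hXU.trans hUW, ?_, ?_⟩
        · have h1 : 1 + (L - ε) = x - ε := by rw [hx]; ring
          rw [h1] at hXc
          have h2 : C * (x - ε) ^ θ + β * ε ≤ C * x ^ θ := by
            have hsplit : x - ε = x * (1 + (-(ε / x))) := by
              field_simp
              ring
            have hεx : ε / x ≤ 1 := by
              rw [div_le_one hx0]
              linarith
            have h3 : (x - ε) ^ θ ≤ x ^ θ * (1 + θ * (-(ε / x))) := by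
              rw [hsplit, Real.mul_rpow hx0.le (by linarith)]
              apply mul_le_mul_of_nonneg_left _ (Real.rpow_nonneg hx0.le _)
              exact _root_.rpow_one_add_le_one_add_mul_self (by linarith) (by linarith) hθ1.le
            have h4 : x ^ θ / x = x ^ (-c) := by
              rw [← Real.rpow_sub_one hx0.ne']
              congr 1
              rw [hθ]
              ring
            have h5 : C * (x ^ θ * (1 + θ * (-(ε / x)))) = C * x ^ θ - (C * θ) * ε * (x ^ θ / x) := by
              field_simp
              ring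
            have h6 : C * θ = B := by
              rw [hC]
              field_simp
            have h7 := mul_le_mul_of_nonneg_left h3 (by linarith : (0 : ℝ) ≤ C)
            rw [h5, h6, h4] at h7
            rw [hβ]
            linarith
          calc exp (-(C * x ^ θ)) * W.card ≤ exp (-(C * (x - ε) ^ θ)) * (exp (-(β * ε)) * W.card) := by
                rw [← mul_assoc, ← Real.exp_add]
                apply mul_le_mul_of_nonneg_right _ (Nat.cast_nonneg _)
                apply Real.exp_le_exp.2
                linarith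
            _ ≤ exp (-(C * (x - ε) ^ θ)) * U.card :=
                mul_le_mul_of_nonneg_left hUc (Real.exp_pos _).le
            _ ≤ X.card := hXc
        · intro v hv
          refine (hXd v hv).trans (le_of_eq ?_)
          rw [mul_assoc, ← Real.exp_add]
          congr 2
          ring
  -- the general case
  intro W hW d L hL hdeg
  rcases W.eq_empty_or_nonempty with rfl | hWne
  · exact ⟨∅, Finset.Subset.refl _, by simp, by simp⟩
  have hd0 : 0 ≤ d := by
    obtain ⟨v, hv⟩ := hWne
    exact (Nat.cast_nonneg _).trans (hdeg v hv)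
  by_cases hLd : exp L ≤ 2 * d
  · exact core ⌈L⌉₊ W hW d L hL (Nat.le_ceil _) hLd hdeg
  push Not at hLd
  have hmono : ∀ y : ℝ, 0 ≤ y → y ≤ L → exp (-(C * (1 + L) ^ θ)) ≤ exp (-(C * (1 + y) ^ θ)) := by
    intro y hy hyL
    apply Real.exp_le_exp.2
    have h1 : (1 + y) ^ θ ≤ (1 + L) ^ θ := Real.rpow_le_rpow (by linarith) (by linarith) (by linarith)
    have h2 := mul_le_mul_of_nonneg_left h1 (by linarith : (0 : ℝ) ≤ C)
    linarith
  by_cases hd12 : d < 1 / 2
  · refine ⟨W, Finset.Subset.refl _, ?_, ?_⟩
    · have h1 : exp (-(C * (1 + L) ^ θ)) ≤ 1 := by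
        rw [Real.exp_le_one_iff, Left.neg_nonpos_iff]
        apply mul_nonneg (by linarith) (Real.rpow_nonneg (by linarith) _)
      have := mul_le_mul_of_nonneg_right h1 (Nat.cast_nonneg (α := ℝ) W.card)
      linarith
    · intro v hv
      have h1 : ((nb G v ∩ W).card : ℝ) < 1 := by linarith [hdeg v hv]
      have h2 : (nb G v ∩ W).card = 0 := by
        have : (nb G v ∩ W).card < 1 := by exact_mod_cast h1
        omega
      rw [h2]
      simp only [Nat.cast_zero]
      positivity
  · push Not at hd12
    have h2d : 0 < 2 * d := by linarith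
    have hlog0 : 0 ≤ Real.log (2 * d) := Real.log_nonneg (by linarith)
    have hlogL : Real.log (2 * d) ≤ L := by
      rw [Real.log_le_iff_le_exp h2d]
      exact hLd.le
    obtain ⟨X, hXW, hXc, hXd⟩ := core ⌈Real.log (2 * d)⌉₊ W hW d (Real.log (2 * d)) hlog0
      (Nat.le_ceil _) (by rw [Real.exp_log h2d]) hdeg
    refine ⟨X, hXW, ?_, ?_⟩
    · refine le_trans ?_ hXc
      exact mul_le_mul_of_nonneg_right (hmono _ hlog0 hlogL) (Nat.cast_nonneg _)
    · intro v hv
      have h1 := hXd v hv
      rw [Real.exp_neg, Real.exp_log h2d] at h1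
      have h2 : d * (2 * d)⁻¹ = 1 / 2 := by
        field_simp
      rw [h2] at h1
      have h3 : (nb G v ∩ X).card = 0 := by
        have h4 : ((nb G v ∩ X).card : ℝ) < 1 := by linarith
        have : (nb G v ∩ X).card < 1 := by exact_mod_cast h4
        omega
      rw [h3]
      simp only [Nat.cast_zero]
      positivity

/-- **Main theorem.** -/
theorem main_all (r H : ℕ) (hH : 1 ≤ H) : ∀ k : ℕ, ∃ C θ : ℝ, 0 ≤ C ∧ 0 ≤ θ ∧ θ < 1 ∧
    MainS r H k C θ := by
  intro k
  induction k with
  | zero =>
    refine ⟨0, 0, le_rfl, le_rfl, by norm_num, ?_⟩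
    intro V _ G _ W hW d L _ _
    have hWe : W = ∅ := by
      rw [Finset.eq_empty_iff_forall_notMem]
      intro v hv
      refine hW (t := {v}) (by simpa using hv) ?_
      simp [SimpleGraph.isNClique_iff]
    subst hWe
    exact ⟨∅, Finset.Subset.refl _, by simp, by simp⟩
  | succ k ih =>
    obtain ⟨C', θ', h1, h2, h3, h4⟩ := ih
    obtain ⟨C, θ, h5, h6, h7, h8⟩ := main_ind r H k hH C' θ' h1 h2 h3 h4
    exact ⟨C, θ, h5, by linarith, h7, h8⟩

end Pool.Agent.J4.H30.NL
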