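import Pool.Agent.J4.H30.NL.Extract

set_option autoImplicit false

/-!
# One step: a gain in the degree for a small loss in the size
-/

namespace Pool.Agent.J4.H30.NL

open Finset Pool.Agent.Y394.AT Real

open Classical in
theorem sparse_step (r H : ℕ) (hH : 1 ≤ H) : ∃ K : ℝ, 1 ≤ K ∧ ∀ (V : Type) [Fintype V]
    (G : SimpleGraph V) (W : Finset V) (d L β κ : ℝ), W.Nonempty →
    (∀ v ∈ W, ((nb G v ∩ W).card : ℝ) ≤ d) → 0 < β → β ≤ 1 → 0 ≤ L → exp L ≤ 2 * d →
    K ≤ (β / 32) ^ H * (L / 4) → exp (-((β / 32) ^ H * (L / 4))) ≤ κ →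
    (∀ x ∈ W, ∀ Z ⊆ nb G x ∩ W, ∃ Y ⊆ Z, κ * Z.card ≤ Y.card ∧
      ∀ y ∈ Y, ((nb G y ∩ Y).card : ℝ) ≤ d * exp (-L)) →
    (¬ ∃ ψ, IsCopy G r H ψ) →
    ∃ ε, K ≤ ε ∧ ε ≤ L ∧ ∃ U ⊆ W, exp (-(β * ε)) * W.card ≤ U.card ∧
      ∀ u ∈ U, ((nb G u ∩ U).card : ℝ) ≤ d * exp (-ε) := by
  obtain ⟨M, hM⟩ : ∃ M : ℝ, M = ∑ j ∈ range H, (3 * (1 + r * (tt r j : ℝ)) + 2 * tt r j) := ⟨_, rfl⟩
  have hMj : ∀ j < H, 3 * (1 + r * (tt r j : ℝ)) + 2 * tt r j ≤ M := by
    intro j hj
    rw [hM]
    exact Finset.single_le_sum (f := fun j => 3 * (1 + r * (tt r j : ℝ)) + 2 * tt r j)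
      (fun i _ => by positivity) (Finset.mem_range.2 hj)
  have hM0 : 0 ≤ M := by
    have h1 := hMj 0 (by omega)
    have h2 : (0 : ℝ) ≤ 3 * (1 + r * (tt r 0 : ℝ)) + 2 * tt r 0 := by positivity
    linarith
  refine ⟨20 + H + 2 * M + 8 * r, ?_, ?_⟩
  · have h1 : (0 : ℝ) ≤ H := Nat.cast_nonneg _
    have h2 : (0 : ℝ) ≤ r := Nat.cast_nonneg _
    linarith
  intro V _ G W d L β κ hWne hdeg hβ hβ1 hL hLd hKα hκ hK hno
  obtain ⟨K, hKd⟩ : ∃ K : ℝ, K = 20 + H + 2 * M + 8 * r := ⟨_, rfl⟩
  rw [← hKd] at hKα ⊢
  have hHr : (1 : ℝ) ≤ H := by exact_mod_cast hH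
  have hr0 : (0 : ℝ) ≤ r := Nat.cast_nonneg _
  have hd0 : 0 < d := by linarith [Real.exp_pos L]
  have hd1 : 1 ≤ 2 * d := by linarith [Real.add_one_le_exp L]
  obtain ⟨α, hα⟩ : ∃ α : ℕ → ℝ, α = fun j => (β / 32) ^ j * (L / 4) := ⟨_, rfl⟩
  have hα0 : α 0 = L / 4 := by rw [hα]; simp
  have hαs : ∀ j, α (j + 1) = β / 32 * α j := by
    intro j
    rw [hα]
    dsimp only
    rw [pow_succ]
    ring
  have hαnn : ∀ j, 0 ≤ α j := by
    intro j
    rw [hα]
    dsimp only
    positivity
  have hαle : ∀ j, α (j + 1) ≤ α j / 32 := by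
    intro j
    rw [hαs j]
    have := hαnn j
    have h1 := mul_le_mul_of_nonneg_right hβ1 this
    linarith
  have hanti : ∀ i j, i ≤ j → α j ≤ α i := by
    intro i j hij
    induction j, hij using Nat.le_induction with
    | base => exact le_rfl
    | succ n _ ih =>
      have h1 := hαle n
      have h2 := hαnn n
      linarith
  have hαH : ∀ j ≤ H, K ≤ α j := by
    intro j hj
    have h1 := hanti j H hj
    rw [hα] at h1
    dsimp only at h1
    rw [hα]
    exact hKα.trans h1
  have hKpos : 20 ≤ K := by rw [hKd]; linarith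
  have hL4 : 4 * K ≤ L := by
    have := hαH 0 (by omega)
    rw [hα0] at this
    linarith
  have hαL : ∀ j, α j ≤ L / 4 := fun j => by
    have := hanti 0 j (by omega)
    rwa [hα0] at this
  have hκ0 : 0 < κ := lt_of_lt_of_le (Real.exp_pos _) hκ
  have hαHdef : α H = (β / 32) ^ H * (L / 4) := by rw [hα]
  rw [← hαHdef] at hκ
  obtain ⟨σ, hσ⟩ : ∃ σ : ℝ, σ = d * exp (-L) := ⟨_, rfl⟩
  have hσ0 : 0 ≤ σ := by rw [hσ]; positivity
  rw [← hσ] at hK
  -- all subsets have violating pairs
  have hbad : ∀ X' ⊆ W, X'.Nonempty → ∃ j < H, ¬ Good G X' σ (d * exp (-(α j / 2)))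
      (exp (β * α j / 8)) := by
    intro X hXW hXne
    by_contra hcon
    push Not at hcon
    apply hno
    refine good_copy (d := d) (σ := σ) (κ := κ) hXW hXne hd0.le hdeg hσ0 (fun x hx Z hZ =>
      hK x (hXW hx) Z (hZ.trans (Finset.inter_subset_inter_left hXW))) hκ0.le
      (fun j => d * exp (-α j)) (fun j => d * exp (α j)) (fun j => d * exp (-(α (j - 1) / 2)))
      (fun j => exp (β * α (j - 1) / 8)) ?_ ?_ ?_ ?_ ?_ ?_ ?_ ?_ hH
    · intro j hj
      simpa using hcon j hj
    · intro j hj
      positivity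
    · positivity
    · intro j hj
      simp only [Nat.add_sub_cancel]
      have h1 : exp (β * α j / 8) * (d * exp (-α (j + 1))) =
          d * exp (β * α j / 8 - α (j + 1)) := by
        rw [sub_eq_add_neg, Real.exp_add]
        ring
      rw [h1]
      apply mul_le_mul_of_nonneg_left _ hd0.le
      apply Real.exp_le_exp.2
      rw [hαs j]
      have := mul_nonneg hβ.le (hαnn j)
      linarith
    · intro j hj
      simp only [Nat.add_sub_cancel]
      have h1 : exp (-(α j / 4)) ≤ κ := by
        refine le_trans (Real.exp_le_exp.2 ?_) hκ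
        have h2 := hanti (j + 1) H (by omega)
        have h3 := hαle j
        have h4 := hαnn j
        linarith
      have h2 : (4 : ℝ) ^ r ≤ exp (α j / 4) := by
        have h3 : (4 : ℝ) ≤ exp 2 := by
          have h4 : exp 2 = exp 1 * exp 1 := by rw [← Real.exp_add]; norm_num
          have h5 := Real.exp_one_gt_d9
          rw [h4]
          nlinarith
        calc (4 : ℝ) ^ r ≤ (exp 2) ^ r := pow_le_pow_left₀ (by norm_num) h3 r
          _ = exp (r * 2) := by rw [← Real.exp_nat_mul]
          _ ≤ exp (α j / 4) := by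
              apply Real.exp_le_exp.2
              have := hαH j (by omega)
              rw [hKd] at this
              linarith
      calc 4 ^ r * (d * exp (-α j)) ≤ exp (α j / 4) * (d * exp (-α j)) :=
            mul_le_mul_of_nonneg_right h2 (by positivity)
        _ = exp (-(α j / 4)) * (d * exp (-(α j / 2))) := by
            have h5 : exp (α j / 4) * exp (-α j) = exp (-(α j / 4)) * exp (-(α j / 2)) := by
              rw [← Real.exp_add, ← Real.exp_add]
              congr 1
              ring
            calc exp (α j / 4) * (d * exp (-α j)) = d * (exp (α j / 4) * exp (-α j)) := by ring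
              _ = _ := by rw [h5]; ring
        _ ≤ κ * (d * exp (-(α j / 2))) := mul_le_mul_of_nonneg_right h1 (by positivity)
    · intro j hj
      have h1 : exp (α (j + 1)) ≤ exp (α j / 2) := by
        apply Real.exp_le_exp.2
        have h3 := hαle j
        have h4 := hαnn j
        linarith
      have h2 : 1 + M ≤ exp (α j / 2) := by
        have h3 := Real.add_one_le_exp (α j / 2)
        have h4 := hαH j (by omega)
        rw [hKd] at h4
        linarith
      have h3 : exp (α j) = exp (α j / 2) * exp (α j / 2) := by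
        rw [← Real.exp_add]
        congr 1
        ring
      have h4 : exp (α (j + 1)) + M ≤ exp (α j) := by
        rw [h3]
        nlinarith
      have h5 := hMj j hj
      have h6 : (1 + d) * (1 + r * (tt r j : ℝ)) ≤ (3 * d) * (1 + r * (tt r j : ℝ)) :=
        mul_le_mul_of_nonneg_right (by linarith) (by positivity)
      have h7 := mul_le_mul_of_nonneg_left h5 hd0.le
      have h8 := mul_le_mul_of_nonneg_left h4 hd0.le
      nlinarith
    · intro j hj
      have h1 : exp (3 * L / 4) ≤ 2 * (d * exp (-α j)) := by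
        have h2 : exp (3 * L / 4) ≤ exp L * exp (-α j) := by
          rw [← Real.exp_add]
          apply Real.exp_le_exp.2
          linarith [hαL j]
        have h3 := mul_le_mul_of_nonneg_right hLd (Real.exp_pos (-α j)).le
        linarith
      have h4 := Real.add_one_le_exp (3 * L / 4)
      linarith
    · intro j hj
      have h1 : 2 * (tt r j : ℝ) ≤ exp (L - α j) := by
        have h2 := Real.add_one_le_exp (L - α j)
        have h3 := hMj j hj
        have h4 := hαL j
        have h5 : (0 : ℝ) ≤ 3 * (1 + r * (tt r j : ℝ)) := by positivity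
        rw [hKd] at hL4
        linarith
      rw [hσ]
      calc 2 * (tt r j : ℝ) * (d * exp (-L)) ≤ exp (L - α j) * (d * exp (-L)) :=
            mul_le_mul_of_nonneg_right h1 (by positivity)
        _ = d * exp (-α j) := by
            have : exp (L - α j) * exp (-L) = exp (-α j) := by
              rw [← Real.exp_add]
              congr 1
              ring
            calc exp (L - α j) * (d * exp (-L)) = d * (exp (L - α j) * exp (-L)) := by ring
              _ = _ := by rw [this]
  obtain ⟨j, hj, U, hUW, hUc, hUd⟩ := low_set (σ := σ) hH (fun j => d * exp (-(α j / 2)))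
    (fun j => exp (β * α j / 8)) (fun j _ => (Real.exp_pos _).le) (fun j _ => by positivity) W hbad
  have hαj := hαH j hj.le
  have hαj1 := hαH (j + 1) (by omega)
  refine ⟨α j / 4, ?_, ?_, U, hUW, ?_, ?_⟩
  · have := hαle j
    linarith
  · have := hαL j
    linarith
  · have h1 : (1 : ℝ) ≤ exp (β * α j / 8) := by
      have := Real.add_one_le_exp (β * α j / 8)
      have h2 := mul_nonneg hβ.le (hαnn j)
      linarith
    have h2 : 4 * (H : ℝ) ≤ exp (β * α j / 8) := by
      have h3 := Real.add_one_le_exp (β * α j / 8)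
      have h4 : β * α j / 8 = 4 * α (j + 1) := by
        rw [hαs j]
        ring
      rw [hKd] at hαj1
      linarith
    have h5 : (W.card : ℝ) ≤ exp (β * (α j / 4)) * U.card := by
      calc (W.card : ℝ) ≤ 2 * H * (1 + exp (β * α j / 8)) * U.card := hUc
        _ ≤ 2 * H * (2 * exp (β * α j / 8)) * U.card := by
            apply mul_le_mul_of_nonneg_right _ (Nat.cast_nonneg _)
            apply mul_le_mul_of_nonneg_left _ (by positivity)
            linarith
        _ = (4 * H) * exp (β * α j / 8) * U.card := by ring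
        _ ≤ exp (β * α j / 8) * exp (β * α j / 8) * U.card := by
            apply mul_le_mul_of_nonneg_right _ (Nat.cast_nonneg _)
            exact mul_le_mul_of_nonneg_right h2 (Real.exp_pos _).le
        _ = exp (β * (α j / 4)) * U.card := by
            rw [← Real.exp_add]
            congr 2
            ring
    calc exp (-(β * (α j / 4))) * W.card ≤ exp (-(β * (α j / 4))) *
          (exp (β * (α j / 4)) * U.card) := mul_le_mul_of_nonneg_left h5 (Real.exp_pos _).le
      _ = U.card := by
          rw [← mul_assoc, ← Real.exp_add]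
          simp
  · intro u hu
    refine (hUd u hu).trans ?_
    have h1 : σ ≤ d * exp (-(α j / 2)) := by
      rw [hσ]
      apply mul_le_mul_of_nonneg_left _ hd0.le
      apply Real.exp_le_exp.2
      linarith [hαL j]
    have h2 : (6 : ℝ) ≤ exp (α j / 4) := by
      have := Real.add_one_le_exp (α j / 4)
      linarith
    have h3 : 6 * (d * exp (-(α j / 2))) ≤ d * exp (-(α j / 4)) := by
      have h4 : exp (-(α j / 4)) = exp (α j / 4) * exp (-(α j / 2)) := by
        rw [← Real.exp_add]
        congr 1
        ring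
      rw [h4]
      have h5 := mul_le_mul_of_nonneg_right h2 (by positivity : 0 ≤ d * exp (-(α j / 2)))
      linarith
    linarith

end Pool.Agent.J4.H30.NL
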