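import Pool.Agent.J4.H30.NL.Main
import Pool.Agent.R50.SR.Indep
import Pool.Agent.R50.SR.Minimax

set_option autoImplicit false

/-!
# Random independent sets
-/

namespace Pool.Agent.J4.H30.NL

open Finset Pool.Agent.Y394.AT Real Pool.Agent.R50.SR

open Classical in
theorem dd_eq {V : Type} [Fintype V] (G : SimpleGraph V) (U : Finset V) (v : V) :
    dd G U v = ((nb G v ∩ U).card : ℝ) := by
  unfold dd
  rw [← Finset.sum_filter, Finset.sum_const, nsmul_eq_mul, mul_one]
  congr 2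
  ext w
  rw [Finset.mem_filter, Finset.mem_inter, mem_nb]
  tauto

theorem mainS_mono {r H k : ℕ} {C θ θ₁ : ℝ} (hC : 0 ≤ C) (h : θ ≤ θ₁) (hM : MainS r H k C θ) :
    MainS r H k C θ₁ := by
  intro V _ G hno W hW d L hL hdeg
  obtain ⟨X, h1, h2, h3⟩ := hM V G hno W hW d L hL hdeg
  refine ⟨X, h1, ?_, h3⟩
  refine le_trans ?_ h2
  apply mul_le_mul_of_nonneg_right _ (Nat.cast_nonneg _)
  apply Real.exp_le_exp.2
  have h4 : (1 + L) ^ θ ≤ (1 + L) ^ θ₁ := Real.rpow_le_rpow_of_exponent_le (by linarith) h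
  have := mul_le_mul_of_nonneg_left h4 hC
  linarith

/-- independent sets in sets of small degree -/
theorem indep_of_main {r H k : ℕ} {C θ : ℝ} (hM : MainS r H k C θ) {V : Type} [Fintype V]
    (G : SimpleGraph V) (hno : ¬ ∃ ψ, IsCopy G r H ψ) (hG : G.CliqueFree (k + 1)) {D : ℝ}
    (hD : 1 ≤ D) (S : Finset V) (hdeg : ∀ v ∈ S, dd G S v ≤ D) :
    ∃ I ⊆ S, G.IsIndepSet (I : Set V) ∧
      exp (-(C * (1 + Real.log (2 * D)) ^ θ)) * S.card ≤ I.card := by
  classical
  have h2D : 0 < 2 * D := by linarith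
  obtain ⟨X, hXS, hXc, hXd⟩ := hM V G hno S hG.cliqueFreeOn D (Real.log (2 * D))
    (Real.log_nonneg (by linarith)) (fun v hv => by
      have := hdeg v hv
      rw [dd_eq] at this
      convert this)
  refine ⟨X, hXS, ?_, hXc⟩
  intro v hv w hw _ hadj
  have h1 := hXd v hv
  rw [Real.exp_neg, Real.exp_log h2D] at h1
  have h2 : D * (2 * D)⁻¹ = 1 / 2 := by
    have : D ≠ 0 := by linarith
    field_simp
  rw [h2] at h1
  have h3 : (1 : ℝ) ≤ ((nb G v ∩ X).card : ℝ) := by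
    have : 0 < (nb G v ∩ X).card := Finset.card_pos.2 ⟨w, Finset.mem_inter.2 ⟨(mem_nb G v w).2 hadj, hw⟩⟩
    exact_mod_cast this
  linarith

theorem telescoping (n : ℕ) : ∑ j ∈ range n, (1 : ℝ) / (((j : ℝ) + 1) * ((j : ℝ) + 2)) =
    1 - 1 / ((n : ℝ) + 1) := by
  induction n with
  | zero => simp
  | succ n ih =>
    rw [Finset.sum_range_succ, ih]
    push_cast
    field_simp
    ring

/-- the numerical inequality behind the sum over the classes -/
theorem class_ineq {C θ : ℝ} (hC : 0 ≤ C) (hθ : 1 / 2 ≤ θ) (hθ1 : θ ≤ 1) (j : ℕ) :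
    exp (-((30 + 9 * C) * (Real.log (2 ^ j + 1)) ^ θ)) *
      (4 * ((j : ℝ) + 4) / exp (-(C * (1 + Real.log (2 * 2 ^ (j + 1))) ^ θ))) ≤
      1 / (((j : ℝ) + 1) * ((j : ℝ) + 2)) := by
  obtain ⟨y, hy⟩ : ∃ y : ℝ, y = (j : ℝ) + 1 := ⟨_, rfl⟩
  have hj0 : (0 : ℝ) ≤ j := Nat.cast_nonneg _
  have hy1 : 1 ≤ y := by linarith
  have hy0 : 0 < y := by linarith
  have hl2 := Real.log_two_gt_d9
  have hl2' := Real.log_two_lt_d9
  have h1 : y / 3 ≤ Real.log (2 ^ j + 1) := by
    rcases Nat.eq_zero_or_pos j with rfl | hj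
    · rw [hy]
      norm_num
      linarith
    · have h2 : Real.log (2 ^ j) ≤ Real.log (2 ^ j + 1) :=
        Real.log_le_log (by positivity) (by linarith)
      rw [Real.log_pow] at h2
      have h3 : (1 : ℝ) ≤ j := by exact_mod_cast hj
      nlinarith
  have h2 : y ^ θ / 3 ≤ (Real.log (2 ^ j + 1)) ^ θ := by
    have h3 : (y / 3) ^ θ ≤ (Real.log (2 ^ j + 1)) ^ θ :=
      Real.rpow_le_rpow (by positivity) h1 (by linarith)
    have h4 : (3 : ℝ) ^ θ ≤ 3 := by
      calc (3 : ℝ) ^ θ ≤ 3 ^ (1 : ℝ) := Real.rpow_le_rpow_of_exponent_le (by norm_num) hθ1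
        _ = 3 := Real.rpow_one 3
    rw [Real.div_rpow hy0.le (by norm_num)] at h3
    refine le_trans ?_ h3
    apply div_le_div_of_nonneg_left (Real.rpow_nonneg hy0.le _) (by positivity) h4
  have h3 : (1 + Real.log (2 * 2 ^ (j + 1))) ^ θ ≤ 3 * y ^ θ := by
    have h4 : 1 + Real.log (2 * 2 ^ (j + 1)) ≤ 3 * y := by
      have h5 : (2 : ℝ) * 2 ^ (j + 1) = 2 ^ (j + 2) := by ring
      rw [h5, Real.log_pow, hy]
      push_cast
      nlinarith
    have h6 : 0 ≤ 1 + Real.log (2 * 2 ^ (j + 1)) := by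
      have h7 : 0 ≤ Real.log (2 * 2 ^ (j + 1)) := by
        apply Real.log_nonneg
        have : (1 : ℝ) ≤ 2 ^ (j + 1) := one_le_pow₀ (by norm_num)
        linarith
      linarith
    calc (1 + Real.log (2 * 2 ^ (j + 1))) ^ θ ≤ (3 * y) ^ θ := Real.rpow_le_rpow h6 h4 (by linarith)
      _ = 3 ^ θ * y ^ θ := Real.mul_rpow (by norm_num) hy0.le
      _ ≤ 3 * y ^ θ := by
          apply mul_le_mul_of_nonneg_right _ (Real.rpow_nonneg hy0.le _)
          calc (3 : ℝ) ^ θ ≤ 3 ^ (1 : ℝ) := Real.rpow_le_rpow_of_exponent_le (by norm_num) hθ1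
            _ = 3 := Real.rpow_one 3
  have hyθ : 1 ≤ y ^ θ := Real.one_le_rpow hy1 (by linarith)
  have h4 : 4 * ((j : ℝ) + 4) * (((j : ℝ) + 1) * ((j : ℝ) + 2)) ≤ exp (10 * y ^ θ) := by
    have h5 : 4 * ((j : ℝ) + 4) * (((j : ℝ) + 1) * ((j : ℝ) + 2)) ≤ 32 * y ^ 3 := by
      rw [hy]
      nlinarith [mul_nonneg hj0 hj0, mul_nonneg (mul_nonneg hj0 hj0) hj0]
    have h6 : Real.log y ≤ 2 * y ^ θ := by
      have h7 := Real.log_le_rpow_div hy0.le (by linarith : (0 : ℝ) < θ)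
      have h8 : y ^ θ / θ ≤ 2 * y ^ θ := by
        rw [div_le_iff₀ (by linarith)]
        nlinarith
      linarith
    have h7 : 32 * y ^ 3 ≤ exp (10 * y ^ θ) := by
      have h8 : y ^ 3 = exp (3 * Real.log y) := by
        rw [mul_comm, Real.exp_mul, Real.exp_log hy0]
        norm_cast
      have h9 : (32 : ℝ) ≤ exp 4 := by
        have h10 := Real.exp_one_gt_d9
        have h11 : exp 4 = exp 1 ^ 4 := by rw [← Real.exp_nat_mul]; norm_num
        rw [h11]
        calc (32 : ℝ) ≤ 2.7 ^ 4 := by norm_num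
          _ ≤ exp 1 ^ 4 := pow_le_pow_left₀ (by norm_num) (by linarith) 4
      calc 32 * y ^ 3 ≤ exp 4 * exp (3 * Real.log y) := by
            rw [h8]
            exact mul_le_mul_of_nonneg_right h9 (Real.exp_pos _).le
        _ = exp (4 + 3 * Real.log y) := by rw [Real.exp_add]
        _ ≤ exp (10 * y ^ θ) := Real.exp_le_exp.2 (by linarith)
    linarith
  have h5 : exp (-((30 + 9 * C) * (Real.log (2 ^ j + 1)) ^ θ)) ≤
      exp (-(10 * y ^ θ)) * exp (-(C * (1 + Real.log (2 * 2 ^ (j + 1))) ^ θ)) := by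
    rw [← Real.exp_add]
    apply Real.exp_le_exp.2
    have h6 := mul_le_mul_of_nonneg_left h2 (by linarith : (0 : ℝ) ≤ 30 + 9 * C)
    have h7 := mul_le_mul_of_nonneg_left h3 hC
    nlinarith
  have hj1 : (0 : ℝ) < (j : ℝ) + 1 := by positivity
  have hj2 : (0 : ℝ) < (j : ℝ) + 2 := by positivity
  rw [le_div_iff₀ (by positivity)]
  calc exp (-((30 + 9 * C) * (Real.log (2 ^ j + 1)) ^ θ)) *
      (4 * ((j : ℝ) + 4) / exp (-(C * (1 + Real.log (2 * 2 ^ (j + 1))) ^ θ))) *
        (((j : ℝ) + 1) * ((j : ℝ) + 2))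
      ≤ (exp (-(10 * y ^ θ)) * exp (-(C * (1 + Real.log (2 * 2 ^ (j + 1))) ^ θ))) *
      (4 * ((j : ℝ) + 4) / exp (-(C * (1 + Real.log (2 * 2 ^ (j + 1))) ^ θ))) *
        (((j : ℝ) + 1) * ((j : ℝ) + 2)) := by
        apply mul_le_mul_of_nonneg_right _ (by positivity)
        exact mul_le_mul_of_nonneg_right h5 (by positivity)
    _ = exp (-(10 * y ^ θ)) * (4 * ((j : ℝ) + 4) * (((j : ℝ) + 1) * ((j : ℝ) + 2))) := by
        have := (Real.exp_pos (-(C * (1 + Real.log (2 * 2 ^ (j + 1))) ^ θ))).ne'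
        field_simp
    _ ≤ exp (-(10 * y ^ θ)) * exp (10 * y ^ θ) :=
        mul_le_mul_of_nonneg_left h4 (Real.exp_pos _).le
    _ = 1 := by
        rw [← Real.exp_add]
        simp

/-- the probability -/
noncomputable def pr (C θ : ℝ) (d : ℕ) : ℝ := exp (-(C * (Real.log (2 + d)) ^ θ))

/-- the weighted form -/
theorem weighted {r H k : ℕ} {C θ : ℝ} (hC : 0 ≤ C) (hθ : 1 / 2 ≤ θ) (hθ1 : θ ≤ 1)
    (hM : MainS r H k C θ) {V : Type} [Fintype V] (G : SimpleGraph V)
    (hno : ¬ ∃ ψ, IsCopy G r H ψ) (hG : G.CliqueFree (k + 1)) (w : V → ℝ) (hw : ∀ v, 0 ≤ w v) :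
    ∃ I : Finset V, G.IsIndepSet (I : Set V) ∧
      ∑ v, pr (30 + 9 * C) θ (nb G v).card * w v ≤ ∑ v ∈ I, w v := by
  classical
  obtain ⟨Z, hZ⟩ : ∃ Z : ℝ, Z = ∑ v, pr (30 + 9 * C) θ (nb G v).card * w v := ⟨_, rfl⟩
  rw [← hZ]
  by_contra hcon
  push Not at hcon
  have hZ0 : 0 < Z := by
    have h1 := hcon ∅ (by simp [SimpleGraph.IsIndepSet])
    simpa using h1
  obtain ⟨cls, hcls⟩ : ∃ cls : V → ℕ, cls = fun v => Nat.log 2 ((nb G v).card + 1) := ⟨_, rfl⟩
  have hlow : ∀ v, (2 : ℝ) ^ cls v + 1 ≤ 2 + ((nb G v).card : ℝ) := by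
    intro v
    have h1 : 2 ^ cls v ≤ (nb G v).card + 1 := by
      rw [hcls]
      exact Nat.pow_log_le_self 2 (by omega)
    have h2 : ((2 ^ cls v : ℕ) : ℝ) ≤ (((nb G v).card + 1 : ℕ) : ℝ) := by exact_mod_cast h1
    push_cast at h2
    linarith
  have hupp : ∀ v, ((nb G v).card : ℝ) ≤ (2 : ℝ) ^ (cls v + 1) := by
    intro v
    have h1 : (nb G v).card + 1 < 2 ^ (cls v + 1) := by
      rw [hcls]
      exact Nat.lt_pow_succ_log_self (by norm_num) _
    have h2 : (((nb G v).card + 1 : ℕ) : ℝ) < ((2 ^ (cls v + 1) : ℕ) : ℝ) := by exact_mod_cast h1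
    push_cast at h2
    linarith
  -- the weight of a class
  have hclass : ∀ j : ℕ, ∑ v ∈ univ.filter (fun v => cls v = j), w v ≤
      4 * ((j : ℝ) + 4) / exp (-(C * (1 + Real.log (2 * 2 ^ (j + 1))) ^ θ)) * Z := by
    intro j
    obtain ⟨W, hW⟩ : ∃ W : Finset V, W = univ.filter (fun v => cls v = j) := ⟨_, rfl⟩
    rw [← hW]
    have hD : (1 : ℝ) ≤ (2 : ℝ) ^ (j + 1) := one_le_pow₀ (by norm_num)
    have hdeg : ∀ S ⊆ W, ∀ v ∈ S, dd G S v ≤ (2 : ℝ) ^ (j + 1) := by
      intro S hS v hv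
      rw [dd_eq]
      have h1 : cls v = j := by
        have := hS hv
        rw [hW, Finset.mem_filter] at this
        exact this.2
      have h2 : ((nb G v ∩ S).card : ℝ) ≤ (nb G v).card := by
        exact_mod_cast Finset.card_le_card Finset.inter_subset_left
      rw [← h1]
      refine le_trans ?_ (hupp v)
      convert h2
    have hβ1 : exp (-(C * (1 + Real.log (2 * 2 ^ (j + 1))) ^ θ)) ≤ 1 := by
      rw [Real.exp_le_one_iff, Left.neg_nonpos_iff]
      apply mul_nonneg hC (Real.rpow_nonneg _ _)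
      have : 0 ≤ Real.log (2 * 2 ^ (j + 1)) := Real.log_nonneg (by linarith)
      linarith
    obtain ⟨I, hIW, hI, hIw⟩ := weights_all G (exp (-(C * (1 + Real.log (2 * 2 ^ (j + 1))) ^ θ)))
      ((2 : ℝ) ^ (j + 1)) (Real.exp_pos _) hβ1 hD w hw W (j + 4) (by omega)
      (by
        have : j + 4 - 1 = j + 1 + 2 := by omega
        rw [this, pow_add (2 : ℝ) (j + 1) 2]
        norm_num
        linarith)
      (fun S hS => indep_of_main hM G hno hG hD S (hdeg S hS)) (hdeg W (Finset.Subset.refl _))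
    have h1 := hcon I hI
    have h2 := (lt_of_le_of_lt hIw h1).le
    have h3 : exp (-(C * (1 + Real.log (2 * 2 ^ (j + 1))) ^ θ)) / (4 * ((j + 4 : ℕ) : ℝ)) *
        ∑ v ∈ W, w v ≤ Z := h2
    have h4 : 0 < exp (-(C * (1 + Real.log (2 * 2 ^ (j + 1))) ^ θ)) := Real.exp_pos _
    push_cast at h3
    rw [div_mul_eq_mul_div, div_le_iff₀ (by positivity)] at h3
    rw [div_mul_eq_mul_div, le_div_iff₀ h4]
    linarith
  have hclass2 : ∀ j : ℕ, ∑ v ∈ univ.filter (fun v => cls v = j),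
      pr (30 + 9 * C) θ (nb G v).card * w v ≤ 1 / (((j : ℝ) + 1) * ((j : ℝ) + 2)) * Z := by
    intro j
    calc ∑ v ∈ univ.filter (fun v => cls v = j), pr (30 + 9 * C) θ (nb G v).card * w v
        ≤ ∑ v ∈ univ.filter (fun v => cls v = j),
            exp (-((30 + 9 * C) * (Real.log (2 ^ j + 1)) ^ θ)) * w v := by
          apply Finset.sum_le_sum
          intro v hv
          rw [Finset.mem_filter] at hv
          apply mul_le_mul_of_nonneg_right _ (hw v)
          unfold pr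
          apply Real.exp_le_exp.2
          have h1 : Real.log (2 ^ j + 1) ≤ Real.log (2 + (nb G v).card) := by
            apply Real.log_le_log (by positivity)
            rw [← hv.2]
            exact hlow v
          have h0 : 0 ≤ Real.log ((2 : ℝ) ^ j + 1) := by
            apply Real.log_nonneg
            have : (0 : ℝ) ≤ 2 ^ j := by positivity
            linarith
          have h2 := Real.rpow_le_rpow h0 h1 (by linarith : 0 ≤ θ)
          have h3 := mul_le_mul_of_nonneg_left h2 (by linarith : (0 : ℝ) ≤ 30 + 9 * C)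
          linarith
      _ = exp (-((30 + 9 * C) * (Real.log (2 ^ j + 1)) ^ θ)) *
            ∑ v ∈ univ.filter (fun v => cls v = j), w v := by rw [Finset.mul_sum]
      _ ≤ exp (-((30 + 9 * C) * (Real.log (2 ^ j + 1)) ^ θ)) *
            (4 * ((j : ℝ) + 4) / exp (-(C * (1 + Real.log (2 * 2 ^ (j + 1))) ^ θ)) * Z) :=
          mul_le_mul_of_nonneg_left (hclass j) (Real.exp_pos _).le
      _ = exp (-((30 + 9 * C) * (Real.log (2 ^ j + 1)) ^ θ)) *
            (4 * ((j : ℝ) + 4) / exp (-(C * (1 + Real.log (2 * 2 ^ (j + 1))) ^ θ))) * Z := by ring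
      _ ≤ _ := mul_le_mul_of_nonneg_right (class_ineq hC hθ hθ1 j) hZ0.le
  obtain ⟨n, hn⟩ : ∃ n : ℕ, ∀ v, cls v < n := by
    refine ⟨(univ.sup cls) + 1, fun v => Nat.lt_succ_of_le (Finset.le_sup (Finset.mem_univ v))⟩
  have hfib : ∑ j ∈ range n, ∑ v ∈ univ.filter (fun v => cls v = j),
      pr (30 + 9 * C) θ (nb G v).card * w v = Z := by
    rw [hZ]
    exact Finset.sum_fiberwise_of_maps_to (fun v _ => Finset.mem_range.2 (hn v)) _
  have hfin : Z ≤ (1 - 1 / ((n : ℝ) + 1)) * Z := by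
    rw [← telescoping n, Finset.sum_mul]
    rw [← hfib]
    rw [hfib]
    calc Z = ∑ j ∈ range n, ∑ v ∈ univ.filter (fun v => cls v = j),
          pr (30 + 9 * C) θ (nb G v).card * w v := hfib.symm
      _ ≤ _ := Finset.sum_le_sum fun j _ => hclass2 j
  have h8 : 0 < 1 / ((n : ℝ) + 1) * Z := by positivity
  linarith

/-- **Random independent sets.** -/
theorem random_indep {r H k : ℕ} {C θ : ℝ} (hC : 0 ≤ C) (hθ : 1 / 2 ≤ θ) (hθ1 : θ ≤ 1)
    (hM : MainS r H k C θ) {V : Type} [Fintype V] [DecidableEq V] (G : SimpleGraph V)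
    (hno : ¬ ∃ ψ, IsCopy G r H ψ) (hG : G.CliqueFree (k + 1)) :
    ∃ p : Finset V → ℝ, (∀ I, 0 ≤ p I) ∧ ∑ I, p I = 1 ∧
      (∀ I, p I ≠ 0 → G.IsIndepSet (I : Set V)) ∧
      ∀ v, pr (31 + 9 * C) θ (nb G v).card ≤ ∑ I ∈ univ.filter (fun I => v ∈ I), p I := by
  classical
  rcases isEmpty_or_nonempty V with hV | hV
  · refine ⟨fun _ => 1, fun I => by norm_num, ?_, ?_, ?_⟩
    · rw [Finset.sum_const, nsmul_eq_mul, mul_one, Finset.card_univ, Fintype.card_finset,
        Fintype.card_eq_zero]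
      norm_num
    · intro I _ x
      exact (hV.false x).elim
    · intro v
      exact (hV.false v).elim
  obtain ⟨φ, hφ⟩ : ∃ φ : V → ℝ, φ = fun v => pr (30 + 9 * C) θ (nb G v).card := ⟨_, rfl⟩
  have hφ0 : ∀ v, 0 < φ v := fun v => by rw [hφ]; exact Real.exp_pos _
  obtain ⟨K, hK⟩ : ∃ K : Set (Finset V → ℝ), K = {p | (∀ I : Finset V, 0 ≤ p I) ∧
      ∑ I : Finset V, p I = 1 ∧ ∀ I : Finset V, ¬ G.IsIndepSet (I : Set V) → p I = 0} := ⟨_, rfl⟩
  obtain ⟨f, hf⟩ : ∃ f : V → (Finset V → ℝ) → ℝ, f = fun v p =>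
      (φ v)⁻¹ * ∑ I ∈ univ.filter (fun I => v ∈ I), p I := ⟨_, rfl⟩
  obtain ⟨p, hpK, hp⟩ := minimax K (by
    rw [hK]
    rintro p ⟨hp1, hp2, hp3⟩ q ⟨hq1, hq2, hq3⟩ a b ha hb hab
    refine ⟨fun I => ?_, ?_, fun I hI => ?_⟩
    · simp only [Pi.add_apply, Pi.smul_apply, smul_eq_mul]
      have := hp1 I
      have := hq1 I
      positivity
    · simp only [Pi.add_apply, Pi.smul_apply, smul_eq_mul]
      rw [Finset.sum_add_distrib, ← Finset.mul_sum, ← Finset.mul_sum, hp2, hq2, mul_one, mul_one,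
        hab]
    · simp only [Pi.add_apply, Pi.smul_apply, smul_eq_mul]
      rw [hp3 I hI, hq3 I hI, mul_zero, mul_zero, add_zero]) f (by
    intro v
    refine ⟨by
      rw [hK]
      rintro p ⟨hp1, hp2, hp3⟩ q ⟨hq1, hq2, hq3⟩ a b ha hb hab
      refine ⟨fun I => ?_, ?_, fun I hI => ?_⟩
      · simp only [Pi.add_apply, Pi.smul_apply, smul_eq_mul]
        have := hp1 I
        have := hq1 I
        positivity
      · simp only [Pi.add_apply, Pi.smul_apply, smul_eq_mul]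
        rw [Finset.sum_add_distrib, ← Finset.mul_sum, ← Finset.mul_sum, hp2, hq2, mul_one,
          mul_one, hab]
      · simp only [Pi.add_apply, Pi.smul_apply, smul_eq_mul]
        rw [hp3 I hI, hq3 I hI, mul_zero, mul_zero, add_zero], ?_⟩
    intro p _ q _ a b _ _ _
    rw [hf]
    simp only [Pi.add_apply, Pi.smul_apply, smul_eq_mul]
    rw [Finset.sum_add_distrib, ← Finset.mul_sum, ← Finset.mul_sum]
    apply le_of_eq
    ring) 1 (by
    intro l hl hl1
    obtain ⟨I, hI, hIw⟩ := weighted hC hθ hθ1 hM G hno hG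
      (fun v => l v * (φ v)⁻¹) (fun v => by
        have := hl v
        have := hφ0 v
        positivity)
    refine ⟨fun J => if J = I then 1 else 0, ?_, ?_⟩
    · rw [hK]
      refine ⟨fun J => by dsimp only; split_ifs <;> norm_num, ?_, fun J hJ => ?_⟩
      · rw [Finset.sum_ite_eq' Finset.univ I]
        simp
      · dsimp only
        rw [if_neg]
        rintro rfl
        exact hJ hI
    · have h1 : ∑ v, pr (30 + 9 * C) θ (nb G v).card * (l v * (φ v)⁻¹) = 1 := by
        rw [← hl1]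
        apply Finset.sum_congr rfl
        intro v _
        have h2 : pr (30 + 9 * C) θ (nb G v).card = φ v := by rw [hφ]
        rw [h2]
        have := (hφ0 v).ne'
        field_simp
      rw [h1] at hIw
      refine hIw.trans (le_of_eq ?_)
      have h2 : ∀ v, l v * f v (fun J => if J = I then 1 else 0) =
          if v ∈ I then l v * (φ v)⁻¹ else 0 := by
        intro v
        rw [hf]
        dsimp only
        rw [Finset.sum_ite_eq' (univ.filter (fun J => v ∈ J)) I]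
        by_cases hv : v ∈ I
        · simp [hv]
        · simp [hv]
      rw [Finset.sum_congr rfl (fun v _ => h2 v), ← Finset.sum_filter]
      congr 1
      ext v
      simp) (1 / 2) (by norm_num)
  rw [hK] at hpK
  obtain ⟨h1, h2, h3⟩ := hpK
  refine ⟨p, h1, h2, fun I hI => ?_, fun v => ?_⟩
  · by_contra h
    exact hI (h3 I h)
  · have h4 := hp v
    rw [hf] at h4
    dsimp only at h4
    rw [inv_mul_eq_div, le_div_iff₀ (hφ0 v)] at h4
    refine le_trans ?_ h4
    have h5 : pr (31 + 9 * C) θ (nb G v).card ≤ 1 / 2 * φ v := by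
      rw [hφ]
      unfold pr
      have h6 : -((31 + 9 * C) * Real.log (2 + ((nb G v).card : ℝ)) ^ θ) =
          -(Real.log (2 + ((nb G v).card : ℝ)) ^ θ) +
          -((30 + 9 * C) * Real.log (2 + ((nb G v).card : ℝ)) ^ θ) := by ring
      rw [h6, Real.exp_add]
      apply mul_le_mul_of_nonneg_right _ (Real.exp_pos _).le
      have h7 : Real.log 2 ≤ Real.log (2 + ((nb G v).card : ℝ)) ^ θ := by
        have h8 : Real.log 2 ^ θ ≤ Real.log (2 + ((nb G v).card : ℝ)) ^ θ := by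
          apply Real.rpow_le_rpow (Real.log_nonneg (by norm_num)) _ (by linarith)
          apply Real.log_le_log (by norm_num)
          have : (0 : ℝ) ≤ (nb G v).card := Nat.cast_nonneg _
          linarith
        have h9 : Real.log 2 ≤ Real.log 2 ^ θ := by
          have h10 := Real.log_two_gt_d9
          have h11 := Real.log_two_lt_d9
          calc Real.log 2 = Real.log 2 ^ (1 : ℝ) := (Real.rpow_one _).symm
            _ ≤ Real.log 2 ^ θ :=
              Real.rpow_le_rpow_of_exponent_ge (by linarith) (by linarith) hθ1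
        linarith
      calc exp (-(Real.log (2 + ((nb G v).card : ℝ)) ^ θ)) ≤ exp (-(Real.log 2)) :=
            Real.exp_le_exp.2 (by linarith)
        _ = 1 / 2 := by
            rw [Real.exp_neg, Real.exp_log (by norm_num)]
            norm_num
    linarith

end Pool.Agent.J4.H30.NL
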