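import Pool.Agent.Y394.AT.Tree
import Pool.Agent.Y394.AT.Grow

set_option autoImplicit false

/-!
# Words as vertices of a tree, and induced copies of complete trees
-/

namespace Pool.Agent.J4.H30.NL

open Finset Pool.Agent.Y394.AT

/-- one of the words is obtained from the other by appending a letter -/
def adjW (l l' : List ℕ) : Prop := (∃ a, l' = l ++ [a]) ∨ ∃ a, l = l' ++ [a]

theorem adjW_symm {l l' : List ℕ} (h : adjW l l') : adjW l' l := Or.symm h

theorem adjW_nil_nil : ¬ adjW [] [] := by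
  rintro (⟨a, h⟩ | ⟨a, h⟩) <;> simp at h

theorem adjW_nil_cons (b : ℕ) (l' : List ℕ) : adjW [] (b :: l') ↔ l' = [] := by
  constructor
  · rintro (⟨a, h⟩ | ⟨a, h⟩)
    · simp only [List.nil_append, List.cons.injEq] at h
      exact h.2
    · simp at h
  · rintro rfl
    exact Or.inl ⟨b, rfl⟩

theorem adjW_cons_nil (a : ℕ) (l : List ℕ) : adjW (a :: l) [] ↔ l = [] := by
  rw [← adjW_nil_cons a l]
  exact ⟨adjW_symm, adjW_symm⟩

theorem adjW_cons_cons (a b : ℕ) (l l' : List ℕ) :
    adjW (a :: l) (b :: l') ↔ a = b ∧ adjW l l' := by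
  unfold adjW
  simp only [List.cons_append, List.cons.injEq]
  constructor
  · rintro (⟨c, h1, h2⟩ | ⟨c, h1, h2⟩)
    · exact ⟨h1.symm, Or.inl ⟨c, h2⟩⟩
    · exact ⟨h1, Or.inr ⟨c, h2⟩⟩
  · rintro ⟨h1, ⟨c, h2⟩ | ⟨c, h2⟩⟩
    · exact Or.inl ⟨c, h1.symm, h2⟩
    · exact Or.inr ⟨c, h1, h2⟩

theorem adjW_irrefl (l : List ℕ) : ¬ adjW l l := by
  rintro (⟨a, h⟩ | ⟨a, h⟩) <;> simp at h

/-- words of length at most `h` with letters below `r` -/
def inW (r h : ℕ) (l : List ℕ) : Prop := l.length ≤ h ∧ ∀ a ∈ l, a < r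

theorem inW_nil (r h : ℕ) : inW r h [] := ⟨by simp, by simp⟩

theorem inW_cons {r h a : ℕ} {l : List ℕ} : inW r (h + 1) (a :: l) ↔ a < r ∧ inW r h l := by
  unfold inW
  simp only [List.length_cons, add_le_add_iff_right, List.mem_cons, forall_eq_or_imp]
  tauto

/-- the graph on all words -/
def WG : SimpleGraph (List ℕ) where
  Adj l l' := adjW l l'
  symm := ⟨fun _ _ h => adjW_symm h⟩
  loopless := ⟨fun l h => adjW_irrefl l h⟩

/-- `ψ` is an induced copy of the complete `r`-ary tree of depth `h` -/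
def IsCopy {V : Type} (G : SimpleGraph V) (r h : ℕ) (ψ : List ℕ → V) : Prop :=
  ∀ l l', inW r h l → inW r h l' → (G.Adj (ψ l) (ψ l') ↔ adjW l l') ∧ (ψ l = ψ l' → l = l')

/-- every tree is an induced subgraph of a complete tree -/
theorem tree_words (m : ℕ) (T : SimpleGraph (Fin (m + 1))) (hT : T.IsTree) :
    ∃ f : Fin (m + 1) → List ℕ, Function.Injective f ∧ (∀ a, inW (m + 1) (m + 1) (f a)) ∧
      ∀ a b, T.Adj a b ↔ adjW (f a) (f b) := by
  obtain ⟨f, h1, h2, h3⟩ := tree_embed WG
    (fun n S => ∀ l ∈ S, inW n n l) (m + 1) ⟨[], by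
      intro l hl
      rw [Finset.mem_singleton] at hl
      rw [hl]
      exact inW_nil 1 1⟩ (by
      intro n _ _ S hS hInv p hp
      refine ⟨p ++ [n], ?_, Or.inl ⟨n, rfl⟩, ?_, ?_⟩
      · intro h
        have h1 := (hInv _ h).2 n (by simp)
        exact lt_irrefl _ h1
      · rintro s hs hsp (⟨a, h⟩ | ⟨a, h⟩)
        · apply hsp
          have := List.append_inj_left' h (by simp)
          exact this.symm
        · have h1 := (hInv _ hs).2 n (by rw [h]; simp)
          exact lt_irrefl _ h1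
      · intro l hl
        rw [Finset.mem_insert] at hl
        rcases hl with rfl | hl
        · refine ⟨?_, ?_⟩
          · have := (hInv _ hp).1
            simp only [List.length_append, List.length_singleton]
            omega
          · intro a ha
            simp only [List.mem_append, List.mem_singleton] at ha
            rcases ha with ha | rfl
            · exact ((hInv _ hp).2 a ha).trans (Nat.lt_succ_self _)
            · exact Nat.lt_succ_self _
        · exact ⟨(hInv _ hl).1.trans (Nat.le_succ _),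
            fun a ha => ((hInv _ hl).2 a ha).trans (Nat.lt_succ_self _)⟩)
    m (Nat.lt_succ_self _) (Fin (m + 1)) T hT (by simp)
  exact ⟨f, h1, fun a => h2 _ (Finset.mem_image_of_mem _ (Finset.mem_univ _)), h3⟩

/-- a copy of a complete tree contains every tree -/
theorem copy_tree {V : Type} (G : SimpleGraph V) (m : ℕ) (T : SimpleGraph (Fin (m + 1)))
    (hT : T.IsTree) (ψ : List ℕ → V) (hψ : IsCopy G (m + 1) (m + 1) ψ) : Nonempty (T ↪g G) := by
  obtain ⟨f, h1, h2, h3⟩ := tree_words m T hT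
  refine ⟨⟨⟨fun a => ψ (f a), ?_⟩, ?_⟩⟩
  · intro a b hab
    exact h1 ((hψ _ _ (h2 a) (h2 b)).2 hab)
  · intro a b
    change G.Adj (ψ (f a)) (ψ (f b)) ↔ T.Adj a b
    rw [(hψ _ _ (h2 a) (h2 b)).1, ← h3]

end Pool.Agent.J4.H30.NL
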